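import Pool.Agent.H89.SC.Tail2

/-!
# Arbitrary independent perturbations
-/

set_option autoImplicit false

open Set Matrix MeasureTheory ProbabilityTheory
open scoped ENNReal NNReal

namespace Pool.Agent.H89.SC

open Pool.Agent.H836R3

variable {ι : Type} [Fintype ι] [DecidableEq ι]

/-- Every interval of length at least `r` has measure at most `L` times its length. -/
def Spread (μ : Measure ℝ) (L r : ℝ) : Prop :=
  ∀ x h : ℝ, 0 ≤ h → r ≤ h → μ (Icc x (x + h)) ≤ ENNReal.ofReal (L * h)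

/-- If all the slices of `S` in the direction of the coordinate `k` have diameter at most `h` then
the measure of `S` is at most `L h`. -/
lemma pi_slice_le (μ : ι → Measure ℝ) [∀ k, IsProbabilityMeasure (μ k)] {L r : ℝ} (k : ι)
    (hμ : Spread (μ k) L r) (S : Set (ι → ℝ)) (hS : MeasurableSet S) {h : ℝ} (h0 : 0 ≤ h)
    (hr : r ≤ h)
    (hL : ∀ d s s', Function.update d k s ∈ S → Function.update d k s' ∈ S → |s - s'| ≤ h) :
    Measure.pi μ S ≤ ENNReal.ofReal (L * h) := by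
  rw [← resample μ k]
  have hm : Measurable (fun p : (ι → ℝ) × ℝ => Function.update p.1 k p.2) := by
    rw [measurable_pi_iff]
    intro i
    by_cases h : i = k
    · subst h
      simpa using measurable_snd
    · simp only [Function.update_of_ne h]
      exact (measurable_pi_apply i).comp measurable_fst
  rw [Measure.map_apply hm hS, Measure.prod_apply (hm hS)]
  calc _ ≤ ∫⁻ _x, ENNReal.ofReal (L * h) ∂(Measure.pi μ) := by
        apply lintegral_mono
        intro x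
        set T : Set ℝ := Prod.mk x ⁻¹' ((fun p : (ι → ℝ) × ℝ => Function.update p.1 k p.2) ⁻¹' S)
          with hT
        change μ k T ≤ ENNReal.ofReal (L * h)
        rcases T.eq_empty_or_nonempty with he | ⟨s0, hs0⟩
        · rw [he]; simp
        have hd : ∀ s ∈ T, ∀ s' ∈ T, |s - s'| ≤ h := fun s hs s' hs' => hL x s s' hs hs'
        have hbdd : BddBelow T := ⟨s0 - h, fun s hs => by
          have := (abs_le.1 (hd s hs s0 hs0)).1
          linarith⟩
        have hsub : T ⊆ Icc (sInf T) (sInf T + h) := by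
          intro s hs
          refine ⟨csInf_le hbdd hs, ?_⟩
          have : s - h ≤ sInf T := le_csInf ⟨s0, hs0⟩ fun s' hs' => by
            have := (abs_le.1 (hd s hs s' hs')).2
            linarith
          linarith
        exact (measure_mono hsub).trans (hμ _ h h0 hr)
    _ = ENNReal.ofReal (L * h) := by simp

variable {Q R : Type} [Fintype Q] [Fintype R]

lemma exc_measure_gen [Nonempty Q] [Nonempty R]
    (μ : ι → Measure ℝ) [∀ k, IsProbabilityMeasure (μ k)] {L ρ : ℝ}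
    (hμ : ∀ k, Spread (μ k) L ρ) {C : Set (Q → ℝ)} {D : Set (R → ℝ)}
    (hC : IsClosedConvexCone C) (hD : IsClosedConvexCone D) {B : (ι → ℝ) → Matrix R Q ℝ}
    (hBc : Continuous B) (hB : EntryMap B) (q : Q) (r : R) {ε ε' : ℝ} {t : ℝ} (ht : 0 ≤ t)
    (htρ : ρ ≤ t) (hε : ε = 1 ∨ ε = -1) (hε' : ε' = 1 ∨ ε' = -1) :
    Measure.pi μ {d | B d ∈ H836R3.SA C D q r ε ε' ∩ H836R3.SB C D q ε t} ≤
      ENNReal.ofReal (L * (t * Real.sqrt (Fintype.card R) * Real.sqrt (Fintype.card Q))) := by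
  obtain ⟨k, s, hs, hk⟩ := hB q r
  have hR1 : 1 ≤ Real.sqrt (Fintype.card R) := by
    rw [Real.one_le_sqrt]; exact_mod_cast Fintype.card_pos
  have hQ1 : 1 ≤ Real.sqrt (Fintype.card Q) := by
    rw [Real.one_le_sqrt]; exact_mod_cast Fintype.card_pos
  have hle : t ≤ t * Real.sqrt (Fintype.card R) * Real.sqrt (Fintype.card Q) := by
    have h1 : t ≤ t * Real.sqrt (Fintype.card R) := by nlinarith
    nlinarith [mul_nonneg ht (by linarith : (0 : ℝ) ≤ Real.sqrt (Fintype.card R))]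
  apply pi_slice_le μ k (hμ k) _ _ (by positivity) (htρ.trans hle)
  · intro d u u' h1 h2
    have := H836R3.slice hε hε' (τ := s * (u' - u)) (fun x y => hk d u u' x y) h1 h2
    rw [abs_mul, abs_sub_comm] at this
    rcases hs with h | h <;> rw [h] at this <;> simpa using this
  · exact (((H836R3.isClosed_SA hD q r ε ε').inter
      (H836R3.isClosed_SB hC q ε t)).preimage hBc).measurableSet

/-- The probability that `B` is `t`-close to be ill-posed. -/
theorem ill_measure_gen [Nonempty Q] [Nonempty R]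
    (μ : ι → Measure ℝ) [∀ k, IsProbabilityMeasure (μ k)] {L ρ : ℝ} (hL : 0 ≤ L)
    (hμ : ∀ k, Spread (μ k) L ρ) {C : Set (Q → ℝ)} {D : Set (R → ℝ)}
    (hC : IsClosedConvexCone C) (hD : IsClosedConvexCone D) {B : (ι → ℝ) → Matrix R Q ℝ}
    (hBc : Continuous B) (hB : EntryMap B) {t : ℝ} (ht : 0 ≤ t) (htρ : ρ ≤ t) :
    Measure.pi μ {d | (∃ z ∈ C, z ⬝ᵥ z = 1 ∧ ∀ y ∈ D, y ⬝ᵥ y = 1 → -t ≤ y ⬝ᵥ (B d).mulVec z) ∧
      (∃ y ∈ D, y ⬝ᵥ y = 1 ∧ ∀ x ∈ C, x ⬝ᵥ x = 1 → y ⬝ᵥ (B d).mulVec x ≤ t)} ≤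
      ENNReal.ofReal (8 * (Fintype.card R * Fintype.card Q *
        Real.sqrt (Fintype.card R * Fintype.card Q)) * L * t) := by
  classical
  let sg : Bool → ℝ := fun b => if b then 1 else -1
  have hsg : ∀ b, sg b = 1 ∨ sg b = -1 := by intro b; cases b <;> simp [sg]
  let X : Q × R × Bool × Bool × Bool → Set (ι → ℝ) := fun p =>
    if p.2.2.2.2 then
      {d | B d ∈ H836R3.SA C D p.1 p.2.1 (sg p.2.2.1) (sg p.2.2.2.1) ∩
        H836R3.SB C D p.1 (sg p.2.2.1) t}
    else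
      {d | (-(B d)ᵀ) ∈ H836R3.SA D C p.2.1 p.1 (sg p.2.2.2.1) (sg p.2.2.1) ∩
        H836R3.SB D C p.2.1 (sg p.2.2.2.1) t}
  have hbound : ∀ p, Measure.pi μ (X p) ≤ ENNReal.ofReal
      (L * (t * Real.sqrt (Fintype.card R) * Real.sqrt (Fintype.card Q))) := by
    rintro ⟨q, r, b1, b2, b3⟩
    cases b3
    · have := exc_measure_gen μ hμ hD hC (B := fun d => -(B d)ᵀ) (by fun_prop) hB.flip r q ht htρ
        (hsg b2) (hsg b1)
      have h2 : t * Real.sqrt (Fintype.card R) * Real.sqrt (Fintype.card Q)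
          = t * Real.sqrt (Fintype.card Q) * Real.sqrt (Fintype.card R) := by ring
      rw [h2]
      simpa [X] using this
    · have := exc_measure_gen μ hμ hC hD hBc hB q r ht htρ (hsg b1) (hsg b2)
      simpa [X] using this
  have hcov : {d | (∃ z ∈ C, z ⬝ᵥ z = 1 ∧ ∀ y ∈ D, y ⬝ᵥ y = 1 → -t ≤ y ⬝ᵥ (B d).mulVec z) ∧
      (∃ y ∈ D, y ⬝ᵥ y = 1 ∧ ∀ x ∈ C, x ⬝ᵥ x = 1 → y ⬝ᵥ (B d).mulVec x ≤ t)} ⊆ ⋃ p, X p := by
    rintro d ⟨hII, hI⟩
    obtain ⟨q, r, ε, ε', hε, hε', h⟩ := cover hC hD hII hI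
    have hbool : ∀ e : ℝ, (e = 1 ∨ e = -1) → ∃ b, sg b = e := by
      rintro e (he | he)
      · exact ⟨true, by simp [sg, he]⟩
      · exact ⟨false, by simp [sg, he]⟩
    obtain ⟨b1, hb1⟩ := hbool ε hε
    obtain ⟨b2, hb2⟩ := hbool ε' hε'
    rw [mem_iUnion]
    rcases h with h | h
    · refine ⟨(q, r, b1, b2, true), ?_⟩
      simp only [X, if_true]
      rw [hb1, hb2]
      exact h
    · refine ⟨(q, r, b1, b2, false), ?_⟩
      simp only [X, Bool.false_eq_true, if_false]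
      rw [hb1, hb2]
      exact h
  calc _ ≤ Measure.pi μ (⋃ p, X p) := measure_mono hcov
    _ ≤ ∑ p, Measure.pi μ (X p) := measure_iUnion_fintype_le _ _
    _ ≤ ∑ _p : Q × R × Bool × Bool × Bool, ENNReal.ofReal
      (L * (t * Real.sqrt (Fintype.card R) * Real.sqrt (Fintype.card Q))) :=
        Finset.sum_le_sum fun p _ => hbound p
    _ = ENNReal.ofReal ((Fintype.card Q * Fintype.card R * 8) *
      (L * (t * Real.sqrt (Fintype.card R) * Real.sqrt (Fintype.card Q)))) := by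
        rw [Finset.sum_const, Finset.card_univ, nsmul_eq_mul]
        rw [ENNReal.ofReal_mul (p := (Fintype.card Q * Fintype.card R * 8 : ℝ)) (by positivity)]
        congr 1
        simp only [Fintype.card_prod, Fintype.card_bool]
        rw [← ENNReal.ofReal_natCast]
        congr 1
        push_cast
        ring
    _ = _ := by
        congr 1
        rw [Real.sqrt_mul (by positivity)]
        ring

variable {m n : ℕ}

/-- The tail bound for the distance to ill-posedness. -/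
theorem rho_tail_gen (hm : 1 ≤ m) (hn : 1 ≤ n) {C₁ : Set (Fin m → ℝ)} {C₂ : Set (Fin n → ℝ)}
    (h1 : IsClosedConvexCone C₁) (h2 : IsClosedConvexCone C₂)
    (μ : (Fin m × Fin n) ⊕ (Fin m ⊕ Fin n) → Measure ℝ) [∀ k, IsProbabilityMeasure (μ k)]
    {L r : ℝ} (hL : 0 ≤ L) (hμ : ∀ k, Spread (μ k) L r) {t : ℝ} (ht : 0 ≤ t) (htr : r ≤ t) :
    Measure.pi μ {d : Data m n | rho C₁ C₂ d < ENNReal.ofReal t} ≤
      ENNReal.ofReal (46 * ((m : ℝ) * n * Real.sqrt (m * n)) * L * t) := by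
  have : NeZero m := ⟨by omega⟩
  have : NeZero n := ⟨by omega⟩
  have hD1 := isClosedConvexCone_dualCone C₁
  have hDD2 := isClosedConvexCone_dualCone (dualCone C₂)
  set X := {d : Data m n | (∃ z ∈ coneUp C₂, z ⬝ᵥ z = 1 ∧ ∀ y ∈ dualCone C₁, y ⬝ᵥ y = 1 →
        -t ≤ y ⬝ᵥ (matP d).mulVec z) ∧
      (∃ y ∈ dualCone C₁, y ⬝ᵥ y = 1 ∧ ∀ x ∈ coneUp C₂, x ⬝ᵥ x = 1 →
        y ⬝ᵥ (matP d).mulVec x ≤ t)} with hX
  set Y := {d : Data m n | (∃ z ∈ coneUp (dualCone C₁), z ⬝ᵥ z = 1 ∧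
        ∀ y ∈ dualCone (dualCone C₂), y ⬝ᵥ y = 1 → -t ≤ y ⬝ᵥ (matD d).mulVec z) ∧
      (∃ y ∈ dualCone (dualCone C₂), y ⬝ᵥ y = 1 ∧ ∀ x ∈ coneUp (dualCone C₁), x ⬝ᵥ x = 1 →
        y ⬝ᵥ (matD d).mulVec x ≤ t)} with hY
  have hXm := ill_measure_gen μ hL hμ (isClosedConvexCone_coneUp h2) hD1 continuous_matP
    entryMap_matP ht htr
  have hYm := ill_measure_gen μ hL hμ (isClosedConvexCone_coneUp hD1) hDD2 continuous_matD
    entryMap_matD ht htr
  rw [← hX] at hXm
  rw [← hY] at hYm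
  have hsub : {d | rho C₁ C₂ d < ENNReal.ofReal t} ⊆ X ∪ Y := by
    intro d hd
    have hns : ¬ StableUpTo C₁ C₂ d (Real.toNNReal t) := by
      intro hs
      have : (Real.toNNReal t : ℝ≥0∞) ≤ rho C₁ C₂ d := le_iSup₂_of_le _ hs le_rfl
      exact absurd hd (not_lt.2 this)
    unfold StableUpTo at hns
    push Not at hns
    obtain ⟨e, he, hne⟩ := hns
    rw [Real.coe_toNNReal t ht] at he
    by_cases hP : PrimalFeasible C₁ C₂ (d + e) ↔ PrimalFeasible C₁ C₂ d
    · right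
      have hDne : ¬ (DualFeasible C₁ C₂ (d + e) ↔ DualFeasible C₁ C₂ d) := by
        have := hne hP
        tauto
      exact dual_change ht he hDne
    · left
      exact primal_change h1 h2 ht he hP
  have hm1 : (1 : ℝ) ≤ m := by exact_mod_cast hm
  have hn1 : (1 : ℝ) ≤ n := by exact_mod_cast hn
  have hs2 : Real.sqrt 2 ≤ 1.42 := by
    rw [Real.sqrt_le_left (by norm_num)]
    norm_num
  have key : ∀ x y : ℝ, 1 ≤ x → 1 ≤ y →
      x * (y + 1) * Real.sqrt (x * (y + 1)) ≤ 2.84 * (x * y * Real.sqrt (x * y)) := by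
    intro x y hx hy
    have e0 : x * (y + 1) ≤ 2 * (x * y) := by nlinarith
    have e1 : Real.sqrt (x * (y + 1)) ≤ 1.42 * Real.sqrt (x * y) := by
      calc Real.sqrt (x * (y + 1)) ≤ Real.sqrt (2 * (x * y)) := Real.sqrt_le_sqrt e0
        _ = Real.sqrt 2 * Real.sqrt (x * y) := Real.sqrt_mul (by norm_num) _
        _ ≤ _ := mul_le_mul_of_nonneg_right hs2 (Real.sqrt_nonneg _)
    calc x * (y + 1) * Real.sqrt (x * (y + 1)) ≤ (2 * (x * y)) * (1.42 * Real.sqrt (x * y)) :=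
          mul_le_mul e0 e1 (Real.sqrt_nonneg _) (by positivity)
      _ = _ := by ring
  calc Measure.pi μ {d | rho C₁ C₂ d < ENNReal.ofReal t}
      ≤ Measure.pi μ (X ∪ Y) := measure_mono hsub
    _ ≤ Measure.pi μ X + Measure.pi μ Y := measure_union_le _ _
    _ ≤ _ := add_le_add hXm hYm
    _ = ENNReal.ofReal (8 * ((m : ℝ) * (n + 1) * Real.sqrt ((m : ℝ) * (n + 1))) * L * t +
          8 * ((n : ℝ) * (m + 1) * Real.sqrt ((n : ℝ) * (m + 1))) * L * t) := by
        rw [ENNReal.ofReal_add (by positivity) (by positivity)]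
        simp
    _ ≤ _ := by
        apply ENNReal.ofReal_le_ofReal
        have e1 := key m n hm1 hn1
        have e2 := key n m hn1 hm1
        rw [mul_comm (n : ℝ) (m : ℝ)] at e2
        have e3 : 0 ≤ (m : ℝ) * n * Real.sqrt ((m : ℝ) * n) := by positivity
        have e4 : 8 * ((m : ℝ) * (n + 1) * Real.sqrt ((m : ℝ) * (n + 1))) +
            8 * ((n : ℝ) * (m + 1) * Real.sqrt ((n : ℝ) * (m + 1))) ≤
            46 * ((m : ℝ) * n * Real.sqrt (m * n)) := by linarith
        have e5 : 0 ≤ L * t := mul_nonneg hL ht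
        have := mul_le_mul_of_nonneg_right e4 e5
        linarith

/-- A first moment bound for the Frobenius norm. -/
lemma frob_le_sum_abs (d : Data m n) : frob d ≤ ∑ k, |d k| := by
  unfold frob
  have h : ∑ k, d k ^ 2 ≤ (∑ k, |d k|) ^ 2 := by
    have := Finset.sum_sq_le_sq_sum_of_nonneg (s := Finset.univ) (f := fun k => |d k|)
      (fun k _ => abs_nonneg _)
    simpa using this
  calc Real.sqrt (∑ k, d k ^ 2) ≤ Real.sqrt ((∑ k, |d k|) ^ 2) := Real.sqrt_le_sqrt h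
    _ = ∑ k, |d k| := Real.sqrt_sq (Finset.sum_nonneg fun k _ => abs_nonneg _)

end Pool.Agent.H89.SC
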