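import Pool.Agent.H89.SC.Gen

/-!
# Arbitrary independent perturbations: the condition number
-/

set_option autoImplicit false

open Set Matrix MeasureTheory ProbabilityTheory
open scoped ENNReal NNReal

namespace Pool.Agent.H89.SC

open Pool.Agent.H836R3 Pool.Agent.Y325.SC

variable {m n : ℕ}

/-- the first absolute moments of the entries -/
lemma frob_markov (μ : (Fin m × Fin n) ⊕ (Fin m ⊕ Fin n) → Measure ℝ)
    [∀ k, IsProbabilityMeasure (μ k)] {M : ℝ} (hM : ∑ k, ∫⁻ x, ‖x‖ₑ ∂(μ k) ≤ ENNReal.ofReal M)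
    {X : ℝ} (hX : 0 < X) :
    Measure.pi μ {d : Data m n | X ≤ frob d} ≤ ENNReal.ofReal (M / X) := by
  have hmeas : ∀ k, Measurable fun d : Data m n => ‖d k‖ₑ := fun k => by fun_prop
  have h1 : ∫⁻ d : Data m n, ∑ k, ‖d k‖ₑ ∂(Measure.pi μ) ≤ ENNReal.ofReal M := by
    rw [lintegral_finsetSum _ fun k _ => hmeas k]
    refine le_trans (le_of_eq (Finset.sum_congr rfl fun k _ => ?_)) hM
    exact (measurePreserving_eval μ k).lintegral_comp (f := fun x : ℝ => ‖x‖ₑ) (by fun_prop)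
  have hsub : {d : Data m n | X ≤ frob d} ⊆ {d | ENNReal.ofReal X ≤ ∑ k, ‖d k‖ₑ} := by
    intro d hd
    have h2 : X ≤ ∑ k, |d k| := le_trans hd (frob_le_sum_abs d)
    have h3 := ENNReal.ofReal_le_ofReal h2
    rw [ENNReal.ofReal_sum_of_nonneg fun k _ => abs_nonneg _] at h3
    refine h3.trans (le_of_eq (Finset.sum_congr rfl fun k _ => ?_))
    rw [← Real.norm_eq_abs, ofReal_norm]
  calc _ ≤ Measure.pi μ {d : Data m n | ENNReal.ofReal X ≤ ∑ k, ‖d k‖ₑ} := measure_mono hsub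
    _ ≤ (∫⁻ d : Data m n, ∑ k, ‖d k‖ₑ ∂(Measure.pi μ)) / ENNReal.ofReal X :=
        meas_ge_le_lintegral_div (Finset.measurable_sum _ fun k _ => hmeas k).aemeasurable
          (ENNReal.ofReal_pos.2 hX).ne' ENNReal.ofReal_ne_top
    _ ≤ ENNReal.ofReal M / ENNReal.ofReal X := ENNReal.div_le_div_right h1 _
    _ = _ := (ENNReal.ofReal_div_of_pos hX).symm

/-- The tail of the condition number for arbitrary independent entries. -/
theorem cond_tail_gen (hm : 1 ≤ m) (hn : 1 ≤ n) {C₁ : Set (Fin m → ℝ)} {C₂ : Set (Fin n → ℝ)}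
    (h1 : IsClosedConvexCone C₁) (h2 : IsClosedConvexCone C₂)
    (μ : (Fin m × Fin n) ⊕ (Fin m ⊕ Fin n) → Measure ℝ) [∀ k, IsProbabilityMeasure (μ k)]
    {L M : ℝ} (hL : 0 < L) (hM : 0 < M) (hμ : ∀ k, Spread (μ k) L 0)
    (hM1 : ∑ k, ∫⁻ x, ‖x‖ₑ ∂(μ k) ≤ ENNReal.ofReal M) {t : ℝ} (ht : 0 < t) :
    Measure.pi μ {d : Data m n | ENNReal.ofReal t ≤ condNum C₁ C₂ d} ≤
      ENNReal.ofReal (Real.sqrt (184 * ((m : ℝ) * n * Real.sqrt (m * n)) * L * M / t)) := by
  have hm1 : (1 : ℝ) ≤ m := by exact_mod_cast hm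
  have hn1 : (1 : ℝ) ≤ n := by exact_mod_cast hn
  have hmn : (1 : ℝ) ≤ (m : ℝ) * n := by nlinarith
  have hs : 0 < Real.sqrt ((m : ℝ) * n) := Real.sqrt_pos.2 (by linarith)
  set c : ℝ := 46 * ((m : ℝ) * n * Real.sqrt (m * n)) * L with hc
  have hc0 : 0 < c := by positivity
  set X : ℝ := Real.sqrt (M * t / c) with hX
  have hX0 : 0 < X := Real.sqrt_pos.2 (by positivity)
  have hXX : X * X = M * t / c := Real.mul_self_sqrt (by positivity)
  have hcov : {d : Data m n | ENNReal.ofReal t ≤ condNum C₁ C₂ d} ⊆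
      {d | X ≤ frob d} ∪ {d | rho C₁ C₂ d < ENNReal.ofReal (X / t)} := by
    intro d hd
    have hd' : ENNReal.ofReal t ≤ condNum C₁ C₂ d := hd
    by_cases hfd : X ≤ frob d
    · exact Or.inl hfd
    · right
      rw [not_le] at hfd
      have hpos : 0 < X / t := by positivity
      change rho C₁ C₂ d < ENNReal.ofReal (X / t)
      unfold condNum at hd'
      split_ifs at hd' with h0
      · rw [h0]
        exact ENNReal.ofReal_pos.2 hpos
      · have hmul : ENNReal.ofReal t * rho C₁ C₂ d ≤ ENNReal.ofReal (frob d) :=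
          ENNReal.mul_le_of_le_div hd'
        have hle : rho C₁ C₂ d ≤ ENNReal.ofReal (frob d) / ENNReal.ofReal t := by
          rw [ENNReal.le_div_iff_mul_le (Or.inl (ENNReal.ofReal_pos.2 ht).ne')
            (Or.inl ENNReal.ofReal_ne_top), mul_comm]
          exact hmul
        rw [← ENNReal.ofReal_div_of_pos ht] at hle
        refine lt_of_le_of_lt hle ?_
        apply (ENNReal.ofReal_lt_ofReal_iff hpos).2
        exact (div_lt_div_iff_of_pos_right ht).2 hfd
  calc _ ≤ Measure.pi μ ({d | X ≤ frob d} ∪ {d | rho C₁ C₂ d < ENNReal.ofReal (X / t)}) :=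
        measure_mono hcov
    _ ≤ _ := measure_union_le _ _
    _ ≤ ENNReal.ofReal (M / X) + ENNReal.ofReal (c * (X / t)) :=
        add_le_add (frob_markov μ hM1 hX0)
          (rho_tail_gen hm hn h1 h2 μ hL.le hμ (by positivity) (by positivity))
    _ = ENNReal.ofReal (M / X + c * (X / t)) :=
        (ENNReal.ofReal_add (by positivity) (by positivity)).symm
    _ ≤ _ := by
        apply ENNReal.ofReal_le_ofReal
        apply Real.le_sqrt_of_sq_le
        have e1 : M / X = c * (X / t) := by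
          rw [div_eq_iff hX0.ne']
          have : c * (X / t) * X = c * (X * X) / t := by ring
          rw [this, hXX]
          field_simp
        rw [e1]
        have e2 : (c * (X / t) + c * (X / t)) ^ 2 = 4 * c ^ 2 * (X * X) / t ^ 2 := by ring
        rw [e2, hXX]
        apply le_of_eq
        rw [hc]
        field_simp
        ring

lemma log_sq_toENNReal (x : ℝ≥0∞) :
    (ENNReal.log x).toENNReal = 2 * (ENNReal.log (x ^ (1 / 2 : ℝ))).toENNReal := by
  rw [ENNReal.log_rpow]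
  have h1 : (((1 / 2 : ℝ)) : EReal) * ENNReal.log x = ((1 / 2 : ℝ) : EReal) * ENNReal.log x := rfl
  have h2 : (0 : EReal) ≤ ((1 / 2 : ℝ) : EReal) := by
    exact_mod_cast (by norm_num : (0 : ℝ) ≤ 1 / 2)
  rw [EReal.toENNReal_mul h2, ← mul_assoc]
  have h3 : (2 : ℝ≥0∞) * (((1 / 2 : ℝ) : ℝ) : EReal).toENNReal = 1 := by
    rw [EReal.toENNReal_of_ne_top (EReal.coe_ne_top _), EReal.toReal_coe]
    rw [show (2 : ℝ≥0∞) = ENNReal.ofReal 2 by simp, ← ENNReal.ofReal_mul (by norm_num)]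
    norm_num
  rw [h3, one_mul]

/-- The expected logarithm for arbitrary independent entries. -/
theorem log_gen (hm : 1 ≤ m) (hn : 1 ≤ n) {C₁ : Set (Fin m → ℝ)} {C₂ : Set (Fin n → ℝ)}
    (h1 : IsClosedConvexCone C₁) (h2 : IsClosedConvexCone C₂)
    (μ : (Fin m × Fin n) ⊕ (Fin m ⊕ Fin n) → Measure ℝ) [∀ k, IsProbabilityMeasure (μ k)]
    {L M : ℝ} (hL : 0 < L) (hM : 0 < M) (hLM : 1 ≤ L * M) (hμ : ∀ k, Spread (μ k) L 0)
    (hM1 : ∑ k, ∫⁻ x, ‖x‖ₑ ∂(μ k) ≤ ENNReal.ofReal M) :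
    ∫⁻ d, (ENNReal.log (condNum C₁ C₂ d)).toENNReal ∂(Measure.pi μ) ≤
      ENNReal.ofReal (Real.log (184 * ((m : ℝ) * n * Real.sqrt (m * n)) * L * M) + 4) := by
  have hm1 : (1 : ℝ) ≤ m := by exact_mod_cast hm
  have hn1 : (1 : ℝ) ≤ n := by exact_mod_cast hn
  have hmn : (1 : ℝ) ≤ (m : ℝ) * n := by nlinarith
  have hs1 : 1 ≤ Real.sqrt (m * n) := by rw [Real.one_le_sqrt]; exact hmn
  set H : ℝ := 184 * ((m : ℝ) * n * Real.sqrt (m * n)) * L * M with hH
  have hH1 : 1 ≤ H := by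
    have e1 : 1 ≤ (m : ℝ) * n * Real.sqrt (m * n) := by nlinarith
    have e2 : H = 184 * (((m : ℝ) * n * Real.sqrt (m * n)) * (L * M)) := by rw [hH]; ring
    rw [e2]
    nlinarith
  have hH0 : 0 < H := by linarith
  have hQ1 : 1 ≤ Real.sqrt H := by rw [Real.one_le_sqrt]; exact hH1
  have hf : Measurable fun d : Data m n => condNum C₁ C₂ d ^ (1 / 2 : ℝ) :=
    (measurable_condNum h1 h2).pow_const _
  have htail : ∀ t : ℝ, 0 < t → Measure.pi μ
      {d : Data m n | ENNReal.ofReal t ≤ condNum C₁ C₂ d ^ (1 / 2 : ℝ)} ≤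
      ENNReal.ofReal (Real.sqrt H / t) := by
    intro t ht
    have hsub : {d : Data m n | ENNReal.ofReal t ≤ condNum C₁ C₂ d ^ (1 / 2 : ℝ)} ⊆
        {d | ENNReal.ofReal (t ^ 2) ≤ condNum C₁ C₂ d} := by
      intro d hd
      have hd' : ENNReal.ofReal t ≤ condNum C₁ C₂ d ^ (1 / 2 : ℝ) := hd
      have h3 := ENNReal.rpow_le_rpow hd' (show (0 : ℝ) ≤ 2 by norm_num)
      rw [← ENNReal.rpow_mul] at h3
      norm_num at h3
      change ENNReal.ofReal (t ^ 2) ≤ condNum C₁ C₂ d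
      rw [ENNReal.ofReal_pow ht.le]
      exact h3
    refine (measure_mono hsub).trans ((cond_tail_gen hm hn h1 h2 μ hL hM hμ hM1
      (show 0 < t ^ 2 by positivity)).trans (le_of_eq ?_))
    congr 1
    rw [Real.sqrt_div' _ (by positivity), Real.sqrt_sq ht.le]
  have h3 := Pool.Agent.Y980.SC.logm (Measure.pi μ) _ hf hQ1 htail
  calc ∫⁻ d, (ENNReal.log (condNum C₁ C₂ d)).toENNReal ∂(Measure.pi μ)
      = ∫⁻ d, 2 * (ENNReal.log (condNum C₁ C₂ d ^ (1 / 2 : ℝ))).toENNReal ∂(Measure.pi μ) := by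
        congr 1
        ext d
        exact log_sq_toENNReal _
    _ = 2 * ∫⁻ d, (ENNReal.log (condNum C₁ C₂ d ^ (1 / 2 : ℝ))).toENNReal ∂(Measure.pi μ) :=
        lintegral_const_mul _
          (measurable_ereal_toENNReal.comp (ENNReal.log_monotone.measurable.comp hf))
    _ ≤ 2 * ENNReal.ofReal (Real.log (Real.sqrt H) + 2) := by gcongr
    _ = _ := by
        rw [show (2 : ℝ≥0∞) = ENNReal.ofReal 2 by simp, ← ENNReal.ofReal_mul (by norm_num)]
        congr 1
        rw [Real.log_sqrt hH0.le]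
        ring

end Pool.Agent.H89.SC
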