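import Pool.Graph.R_seed8.H836R3.Gauss

/-!
# Slices of a product Gaussian in an arbitrary direction
-/

set_option autoImplicit false

open MeasureTheory ProbabilityTheory Set
open scoped ENNReal NNReal

namespace Pool.Agent.H89.SC

open Pool.Agent.H836R3

variable {ι : Type} [Fintype ι] [DecidableEq ι]

lemma dual_apply (L : StrongDual ℝ (ι → ℝ)) (x : ι → ℝ) :
    L x = ∑ k, x k * L (Pi.single k 1) := by
  have h : x = ∑ i, x i • (Pi.single i (1 : ℝ) : ι → ℝ) := by
    ext j
    simp [Finset.sum_apply, Pi.single_apply]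
  conv_lhs => rw [h]
  rw [map_sum]
  exact Finset.sum_congr rfl fun i _ => by rw [map_smul, smul_eq_mul]

lemma charFunDual_real (m : ℝ) (v : ℝ≥0) (L : StrongDual ℝ ℝ) :
    charFunDual (gaussianReal m v) L =
      Complex.exp (((L 1 * m : ℝ) : ℂ) * Complex.I - ((v * L 1 ^ 2 / 2 : ℝ) : ℂ)) := by
  have h1 : charFunDual (gaussianReal m v) L = charFun (gaussianReal m v) (L 1) := by
    rw [charFunDual_apply, charFun_apply_real]
    congr 1
    ext x
    congr 1
    have : L x = x * L 1 := by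
      conv_lhs => rw [← mul_one x, ← smul_eq_mul, map_smul, smul_eq_mul]
    rw [this]
    push_cast
    ring
  rw [h1, charFun_gaussianReal]
  congr 1
  push_cast
  ring

lemma charFunDual_gaussPi (a : ι → ℝ) (σ : ℝ) (L : StrongDual ℝ (ι → ℝ)) :
    charFunDual (gaussPi a σ) L =
      Complex.exp (((∑ k, L (Pi.single k 1) * a k : ℝ) : ℂ) * Complex.I -
        ((σ ^ 2 * (∑ k, L (Pi.single k 1) ^ 2) / 2 : ℝ) : ℂ)) := by
  unfold gaussPi
  rw [charFunDual_pi]
  simp_rw [charFunDual_real]
  rw [← Complex.exp_sum]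
  congr 1
  rw [Finset.sum_sub_distrib, ← Finset.sum_mul]
  have hv : ((Real.toNNReal (σ ^ 2) : ℝ≥0) : ℝ) = σ ^ 2 := Real.coe_toNNReal _ (sq_nonneg σ)
  rw [hv]
  congr 1
  · push_cast
    congr 1
  · push_cast
    rw [Finset.mul_sum, Finset.sum_div]
    rfl

/-- the map replacing the component in the direction `W` -/
noncomputable def repl (W : ι → ℝ) : ((ι → ℝ) × ℝ) →L[ℝ] (ι → ℝ) :=
  ContinuousLinearMap.fst ℝ (ι → ℝ) ℝ +
    (ContinuousLinearMap.snd ℝ (ι → ℝ) ℝ -
      (∑ k, (W k) • (ContinuousLinearMap.proj (R := ℝ) (φ := fun _ : ι => ℝ) k)).comp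
        (ContinuousLinearMap.fst ℝ (ι → ℝ) ℝ)).smulRight W

lemma repl_apply (W x : ι → ℝ) (g : ℝ) :
    repl W (x, g) = x + (g - ∑ k, W k * x k) • W := by
  simp [repl, ContinuousLinearMap.sum_apply]

/-- Replacing the component of a Gaussian in a unit direction by an independent one. -/
lemma map_repl (a W : ι → ℝ) (σ : ℝ) (hW : ∑ k, W k ^ 2 = 1) :
    Measure.map (repl W)
      ((gaussPi a σ).prod (gaussianReal (∑ k, W k * a k) (Real.toNNReal (σ ^ 2)))) =
      gaussPi a σ := by
  have : IsFiniteMeasure (Measure.map (repl W)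
      ((gaussPi a σ).prod (gaussianReal (∑ k, W k * a k) (Real.toNNReal (σ ^ 2))))) :=
    inferInstance
  apply Measure.ext_of_charFunDual
  ext L
  rw [charFunDual_map, charFunDual_prod, charFunDual_gaussPi, charFunDual_gaussPi,
    charFunDual_real, ← Complex.exp_add]
  set l : ι → ℝ := fun k => L (Pi.single k 1) with hl
  set c : ℝ := L W with hc
  have hcl : c = ∑ k, W k * l k := dual_apply L W
  have e1 : ∀ k, ((L.comp (repl W)).comp (ContinuousLinearMap.inl ℝ (ι → ℝ) ℝ))
      (Pi.single k 1) = l k - W k * c := by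
    intro k
    simp only [ContinuousLinearMap.comp_apply, ContinuousLinearMap.inl_apply]
    rw [repl_apply, map_add, map_smul]
    have : ∑ j, W j * (Pi.single k (1 : ℝ) : ι → ℝ) j = W k := by
      simp [Pi.single_apply]
    rw [this]
    simp only [smul_eq_mul, hl, hc]
    ring
  have e2 : ((L.comp (repl W)).comp (ContinuousLinearMap.inr ℝ (ι → ℝ) ℝ)) 1 = c := by
    simp only [ContinuousLinearMap.comp_apply, ContinuousLinearMap.inr_apply]
    rw [repl_apply]
    simp [hc]
  simp_rw [e1, e2]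
  have hv : ((Real.toNNReal (σ ^ 2) : ℝ≥0) : ℝ) = σ ^ 2 := Real.coe_toNNReal _ (sq_nonneg σ)
  rw [hv]
  have f1 : ∑ k, (l k - W k * c) * a k + c * ∑ k, W k * a k = ∑ k, l k * a k := by
    rw [Finset.mul_sum, ← Finset.sum_add_distrib]
    exact Finset.sum_congr rfl fun k _ => by ring
  have f2 : ∑ k, (l k - W k * c) ^ 2 + c ^ 2 = ∑ k, l k ^ 2 := by
    have : ∑ k, (l k - W k * c) ^ 2 =
        ∑ k, l k ^ 2 - 2 * c * (∑ k, W k * l k) + c ^ 2 * ∑ k, W k ^ 2 := by
      rw [Finset.mul_sum, Finset.mul_sum, ← Finset.sum_sub_distrib, ← Finset.sum_add_distrib]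
      exact Finset.sum_congr rfl fun k _ => by ring
    rw [this, ← hcl, hW]
    ring
  congr 1
  rw [← f1, ← f2]
  push_cast
  ring

/-- If all the slices of `S` in the unit direction `W` have diameter at most `L` then the
Gaussian measure of `S` is at most `2 L / σ`. -/
lemma gaussPi_dir_le (a : ι → ℝ) {σ : ℝ} (hσ : 0 < σ) (W : ι → ℝ) (hW : ∑ k, W k ^ 2 = 1)
    (S : Set (ι → ℝ)) (hS : MeasurableSet S) {L : ℝ}
    (hL : ∀ d : ι → ℝ, ∀ s s' : ℝ, d + s • W ∈ S → d + s' • W ∈ S → |s - s'| ≤ L) :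
    gaussPi a σ S ≤ ENNReal.ofReal (2 * L / σ) := by
  rw [← map_repl a W σ hW]
  have hm : Measurable (repl W) := (repl W).continuous.measurable
  rw [Measure.map_apply hm hS, Measure.prod_apply (hm hS)]
  calc _ ≤ ∫⁻ _x, ENNReal.ofReal (2 * L / σ) ∂(gaussPi a σ) := by
        apply lintegral_mono
        intro x
        apply gaussian_diam_le _ hσ
        intro s hs s' hs'
        have h1 : x + (s - ∑ k, W k * x k) • W ∈ S := by
          rw [← repl_apply]; exact hs
        have h2 : x + (s' - ∑ k, W k * x k) • W ∈ S := by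
          rw [← repl_apply]; exact hs'
        have := hL x _ _ h1 h2
        rwa [sub_sub_sub_cancel_right] at this
    _ = ENNReal.ofReal (2 * L / σ) := by simp

end Pool.Agent.H89.SC
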