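import Pool.Agent.H89.SC.Sep2

/-!
# The Gaussian measure of the nearly ill-posed matrices
-/

set_option autoImplicit false

open Set Matrix MeasureTheory ProbabilityTheory
open scoped ENNReal

namespace Pool.Agent.H89.SC

open Pool.Agent.H836R3

/-- The density of a Gaussian is at most `2 / (5 σ)`. -/
lemma gaussianPDF_le' (a : ℝ) {σ : ℝ} (hσ : 0 < σ) (x : ℝ) :
    gaussianPDF a (Real.toNNReal (σ ^ 2)) x ≤ ENNReal.ofReal (2 / 5 / σ) := by
  unfold gaussianPDF
  apply ENNReal.ofReal_le_ofReal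
  rw [gaussianPDFReal_def]
  simp only [Real.coe_toNNReal _ (sq_nonneg σ)]
  have h1 : Real.exp (-(x - a) ^ 2 / (2 * σ ^ 2)) ≤ 1 := by
    rw [Real.exp_le_one_iff]
    apply div_nonpos_of_nonpos_of_nonneg
    · nlinarith [sq_nonneg (x - a)]
    · positivity
  have h2 : (Real.sqrt (2 * Real.pi * σ ^ 2))⁻¹ ≤ 2 / 5 / σ := by
    have h3 : 5 / 2 * σ ≤ Real.sqrt (2 * Real.pi * σ ^ 2) := by
      apply Real.le_sqrt_of_sq_le
      have : (3.14 : ℝ) < Real.pi := Real.pi_gt_d2
      nlinarith [sq_nonneg σ, mul_pos hσ hσ]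
    have h4 : 2 / 5 / σ = (5 / 2 * σ)⁻¹ := by
      field_simp
    rw [h4]
    exact inv_anti₀ (by positivity) h3
  calc _ ≤ (2 / 5 / σ) * 1 := by
        apply mul_le_mul h2 h1 (Real.exp_pos _).le
        positivity
    _ = 2 / 5 / σ := mul_one _

/-- A set of diameter at most `L` has Gaussian measure at most `2 L / (5 σ)`. -/
lemma gaussian_diam_le' (a : ℝ) {σ : ℝ} (hσ : 0 < σ) {L : ℝ} (T : Set ℝ)
    (hT : ∀ s ∈ T, ∀ s' ∈ T, |s - s'| ≤ L) :
    gaussianReal a (Real.toNNReal (σ ^ 2)) T ≤ ENNReal.ofReal (2 / 5 * L / σ) := by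
  rcases T.eq_empty_or_nonempty with rfl | hne
  · simp
  have hv : Real.toNNReal (σ ^ 2) ≠ 0 := by
    rw [Ne, Real.toNNReal_eq_zero, not_le]
    positivity
  obtain ⟨s0, hs0⟩ := hne
  have hbdd : BddBelow T := ⟨s0 - L, fun s hs => by
    have := (abs_le.1 (hT s hs s0 hs0)).1
    linarith⟩
  have hsub : T ⊆ Icc (sInf T) (sInf T + L) := by
    intro s hs
    refine ⟨csInf_le hbdd hs, ?_⟩
    have : s - L ≤ sInf T := le_csInf ⟨s0, hs0⟩ fun s' hs' => by
      have := (abs_le.1 (hT s hs s' hs')).2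
      linarith
    linarith
  calc gaussianReal a (Real.toNNReal (σ ^ 2)) T
      ≤ gaussianReal a (Real.toNNReal (σ ^ 2)) (Icc (sInf T) (sInf T + L)) := measure_mono hsub
    _ = ∫⁻ x in Icc (sInf T) (sInf T + L), gaussianPDF a (Real.toNNReal (σ ^ 2)) x := by
        rw [gaussianReal_apply a hv]
    _ ≤ ∫⁻ x in Icc (sInf T) (sInf T + L), ENNReal.ofReal (2 / 5 / σ) :=
        lintegral_mono fun x => gaussianPDF_le' a hσ x
    _ = ENNReal.ofReal (2 / 5 / σ) * volume (Icc (sInf T) (sInf T + L)) := by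
        rw [setLIntegral_const]
    _ = ENNReal.ofReal (2 / 5 * L / σ) := by
        rw [Real.volume_Icc, ← ENNReal.ofReal_mul (by positivity)]
        congr 1
        field_simp
        ring

variable {ι : Type} [Fintype ι] [DecidableEq ι]

/-- If all the slices of `S` in the unit direction `W` have diameter at most `L` then the
Gaussian measure of `S` is at most `2 L / (5 σ)`. -/
lemma gaussPi_dir_le' (a : ι → ℝ) {σ : ℝ} (hσ : 0 < σ) (W : ι → ℝ) (hW : ∑ k, W k ^ 2 = 1)
    (S : Set (ι → ℝ)) (hS : MeasurableSet S) {L : ℝ}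
    (hL : ∀ d : ι → ℝ, ∀ s s' : ℝ, d + s • W ∈ S → d + s' • W ∈ S → |s - s'| ≤ L) :
    gaussPi a σ S ≤ ENNReal.ofReal (2 / 5 * L / σ) := by
  rw [← map_repl a W σ hW]
  have hm : Measurable (repl W) := (repl W).continuous.measurable
  rw [Measure.map_apply hm hS, Measure.prod_apply (hm hS)]
  calc _ ≤ ∫⁻ _x, ENNReal.ofReal (2 / 5 * L / σ) ∂(gaussPi a σ) := by
        apply lintegral_mono
        intro x
        apply gaussian_diam_le' _ hσ
        intro s hs s' hs'
        have h1 : x + (s - ∑ k, W k * x k) • W ∈ S := by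
          rw [← repl_apply]; exact hs
        have h2 : x + (s' - ∑ k, W k * x k) • W ∈ S := by
          rw [← repl_apply]; exact hs'
        have := hL x _ _ h1 h2
        rwa [sub_sub_sub_cancel_right] at this
    _ = ENNReal.ofReal (2 / 5 * L / σ) := by simp

variable {Q R : Type} [Fintype Q] [Fintype R]

/-- The matrix-valued map `B` moves in the direction of every sign matrix of rank one with unit
speed when its argument moves in a suitable unit direction. -/
def DirMap (B : (ι → ℝ) → Matrix R Q ℝ) : Prop :=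
  ∀ (u : Q → Bool) (v : R → Bool), ∃ W : ι → ℝ, ∑ k, W k ^ 2 = 1 ∧
    ∀ (d : ι → ℝ) (s : ℝ) (r : R) (q : Q),
      B (d + s • W) r q = B d r q +
        s * ((Real.sqrt (Fintype.card R * Fintype.card Q))⁻¹ * (sv v r * sv u q))

omit [DecidableEq ι] in
lemma DirMap.flip {B : (ι → ℝ) → Matrix R Q ℝ} (h : DirMap B) :
    DirMap (fun d => -(B d)ᵀ) := by
  intro v u
  obtain ⟨W, hW, hB⟩ := h u v
  refine ⟨-W, by simpa using hW, fun d s q r => ?_⟩
  have : d + s • -W = d + (-s) • W := by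
    rw [smul_neg, neg_smul]
  simp only [Matrix.neg_apply, Matrix.transpose_apply]
  rw [this, hB]
  rw [mul_comm (Fintype.card Q : ℝ)]
  ring

lemma dot_of_entries {B B' : Matrix R Q ℝ} {u : Q → ℝ} {v : R → ℝ} {τ : ℝ}
    (h : ∀ r q, B' r q = B r q + τ * (v r * u q)) (x : Q → ℝ) (y : R → ℝ) :
    y ⬝ᵥ B'.mulVec x = y ⬝ᵥ B.mulVec x + τ * ((v ⬝ᵥ y) * (u ⬝ᵥ x)) := by
  simp only [dotProduct, mulVec]
  simp_rw [h]
  rw [Finset.sum_mul, Finset.mul_sum, ← Finset.sum_add_distrib]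
  refine Finset.sum_congr rfl fun r _ => ?_
  have : ∑ q, (B r q + τ * (v r * u q)) * x q = ∑ q, B r q * x q + τ * v r * ∑ q, u q * x q := by
    rw [Finset.mul_sum, ← Finset.sum_add_distrib]
    exact Finset.sum_congr rfl fun q _ => by ring
  rw [this]
  ring

lemma exc_measure [Nonempty Q] [Nonempty R]
    (a : ι → ℝ) {σ : ℝ} (hσ : 0 < σ) {C : Set (Q → ℝ)} {D : Set (R → ℝ)}
    (hC : IsClosedConvexCone C) (hD : IsClosedConvexCone D) {B : (ι → ℝ) → Matrix R Q ℝ}
    (hBc : Continuous B) (hB : DirMap B) (t : ℝ) (p : (Q → Bool) × (R → Bool)) :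
    MeasurableSet {d | B d ∈ Exc C D t p} ∧
    gaussPi a σ {d | B d ∈ Exc C D t p} ≤
      ENNReal.ofReal (2 / 5 * (4 * t * Real.sqrt (Fintype.card R * Fintype.card Q)) / σ) := by
  have hm : MeasurableSet {d | B d ∈ Exc C D t p} :=
    (((isClosed_SA hD _ _).inter (isClosed_SB hC _ t)).preimage hBc).measurableSet
  refine ⟨hm, ?_⟩
  obtain ⟨W, hW, hk⟩ := hB p.1 p.2
  set c : ℝ := Real.sqrt (Fintype.card R * Fintype.card Q) with hc
  have hR : (0 : ℝ) < Fintype.card R := by exact_mod_cast Fintype.card_pos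
  have hQ : (0 : ℝ) < Fintype.card Q := by exact_mod_cast Fintype.card_pos
  have hc0 : 0 < c := Real.sqrt_pos.2 (by positivity)
  apply gaussPi_dir_le' a hσ W hW _ hm
  intro d s s' h1 h2
  have h3 := slice (τ := (s - s') * c⁻¹) (B := B (d + s' • W)) (B' := B (d + s • W))
    (u := sv p.1) (v := sv p.2) (C := C) (D := D) (t := t)
    (fun x y => dot_of_entries (fun r q => by rw [hk, hk]; ring) x y) h2 h1
  rw [abs_mul, abs_inv, abs_of_pos hc0] at h3
  have h4 : |s - s'| = |s - s'| * c⁻¹ * c := by field_simp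
  rw [h4]
  exact mul_le_mul_of_nonneg_right h3 hc0.le

lemma count_measure [DecidableEq Q] [DecidableEq R] [Nonempty Q] [Nonempty R]
    (a : ι → ℝ) {σ : ℝ} (hσ : 0 < σ) {C : Set (Q → ℝ)} {D : Set (R → ℝ)}
    (hC : IsClosedConvexCone C) (hD : IsClosedConvexCone D) {B : (ι → ℝ) → Matrix R Q ℝ}
    (hBc : Continuous B) (hB : DirMap B) {t : ℝ} (ht : 0 ≤ t) :
    gaussPi a σ {d | (9 / 1024 : ℝ) * ((2 : ℝ) ^ Fintype.card Q * (2 : ℝ) ^ Fintype.card R) ≤
      ∑ p : (Q → Bool) × (R → Bool), (Exc C D t p).indicator (fun _ => (1 : ℝ)) (B d)} ≤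
      ENNReal.ofReal (8192 / 45 * Real.sqrt (Fintype.card R * Fintype.card Q) * t / σ) := by
  classical
  set M : ℝ := (2 : ℝ) ^ Fintype.card Q * (2 : ℝ) ^ Fintype.card R with hM
  have hM0 : 0 < M := by positivity
  let S : (Q → Bool) × (R → Bool) → Set (ι → ℝ) := fun p => {d | B d ∈ Exc C D t p}
  have hS : ∀ p, MeasurableSet (S p) := fun p => (exc_measure a hσ hC hD hBc hB t p).1
  set f : (ι → ℝ) → ℝ≥0∞ := fun d => ∑ p, (S p).indicator (fun _ => (1 : ℝ≥0∞)) d with hf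
  have hfm : Measurable f :=
    Finset.measurable_sum _ fun p _ => measurable_const.indicator (hS p)
  have hsub : {d | (9 / 1024 : ℝ) * M ≤
      ∑ p : (Q → Bool) × (R → Bool), (Exc C D t p).indicator (fun _ => (1 : ℝ)) (B d)} ⊆
      {d | ENNReal.ofReal (9 / 1024 * M) ≤ f d} := by
    intro d hd
    have h1 := ENNReal.ofReal_le_ofReal (show (9 / 1024 : ℝ) * M ≤
      ∑ p : (Q → Bool) × (R → Bool), (Exc C D t p).indicator (fun _ => (1 : ℝ)) (B d) from hd)
    rw [ENNReal.ofReal_sum_of_nonneg (fun p _ =>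
      Set.indicator_nonneg (fun _ _ => zero_le_one) _)] at h1
    refine h1.trans (le_of_eq (Finset.sum_congr rfl fun p _ => ?_))
    by_cases h : B d ∈ Exc C D t p
    · rw [Set.indicator_of_mem h, Set.indicator_of_mem (show d ∈ S p from h)]
      simp
    · rw [Set.indicator_of_notMem h, Set.indicator_of_notMem (show d ∉ S p from h)]
      simp
  have hε0 : ENNReal.ofReal (9 / 1024 * M) ≠ 0 := (ENNReal.ofReal_pos.2 (by positivity)).ne'
  have hint : ∫⁻ d, f d ∂(gaussPi a σ) ≤ ENNReal.ofReal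
      (M * (2 / 5 * (4 * t * Real.sqrt (Fintype.card R * Fintype.card Q)) / σ)) := by
    rw [hf, lintegral_finsetSum _ fun p _ => measurable_const.indicator (hS p)]
    calc _ = ∑ p, gaussPi a σ (S p) := Finset.sum_congr rfl fun p _ => by
            rw [lintegral_indicator (hS p)]; simp
      _ ≤ ∑ _p : (Q → Bool) × (R → Bool), ENNReal.ofReal
            (2 / 5 * (4 * t * Real.sqrt (Fintype.card R * Fintype.card Q)) / σ) :=
          Finset.sum_le_sum fun p _ => (exc_measure a hσ hC hD hBc hB t p).2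
      _ = _ := by
          rw [Finset.sum_const, Finset.card_univ, nsmul_eq_mul, ENNReal.ofReal_mul hM0.le]
          congr 1
          rw [← ENNReal.ofReal_natCast]
          congr 1
          rw [hM]
          simp
  calc _ ≤ gaussPi a σ {d | ENNReal.ofReal (9 / 1024 * M) ≤ f d} := measure_mono hsub
    _ ≤ (∫⁻ d, f d ∂(gaussPi a σ)) / ENNReal.ofReal (9 / 1024 * M) :=
        meas_ge_le_lintegral_div hfm.aemeasurable hε0 ENNReal.ofReal_ne_top
    _ ≤ ENNReal.ofReal (M * (2 / 5 * (4 * t * Real.sqrt (Fintype.card R * Fintype.card Q)) / σ)) /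
          ENNReal.ofReal (9 / 1024 * M) := ENNReal.div_le_div_right hint _
    _ = _ := by
        rw [← ENNReal.ofReal_div_of_pos (by positivity)]
        congr 1
        field_simp
        ring

/-- The probability that `B` is `t`-close to be ill-posed. -/
theorem ill_measure [DecidableEq Q] [DecidableEq R] [Nonempty Q] [Nonempty R]
    (a : ι → ℝ) {σ : ℝ} (hσ : 0 < σ) {C : Set (Q → ℝ)} {D : Set (R → ℝ)}
    (hC : IsClosedConvexCone C) (hD : IsClosedConvexCone D) {B : (ι → ℝ) → Matrix R Q ℝ}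
    (hBc : Continuous B) (hB : DirMap B) {t : ℝ} (ht : 0 ≤ t) :
    gaussPi a σ {d | (∃ z ∈ C, z ⬝ᵥ z = 1 ∧ ∀ y ∈ D, y ⬝ᵥ y = 1 → -t ≤ y ⬝ᵥ (B d).mulVec z) ∧
      (∃ y ∈ D, y ⬝ᵥ y = 1 ∧ ∀ x ∈ C, x ⬝ᵥ x = 1 → y ⬝ᵥ (B d).mulVec x ≤ t)} ≤
      ENNReal.ofReal (365 * Real.sqrt (Fintype.card R * Fintype.card Q) * t / σ) := by
  have h1 := count_measure a hσ hC hD hBc hB ht
  have h2 := count_measure a hσ hD hC (B := fun d => -(B d)ᵀ) (by fun_prop) hB.flip ht
  calc _ ≤ gaussPi a σ ({d | (9 / 1024 : ℝ) * ((2 : ℝ) ^ Fintype.card Q * (2 : ℝ) ^ Fintype.card R) ≤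
      ∑ p : (Q → Bool) × (R → Bool), (Exc C D t p).indicator (fun _ => (1 : ℝ)) (B d)} ∪
      {d | (9 / 1024 : ℝ) * ((2 : ℝ) ^ Fintype.card R * (2 : ℝ) ^ Fintype.card Q) ≤
      ∑ p : (R → Bool) × (Q → Bool), (Exc D C t p).indicator (fun _ => (1 : ℝ)) (-(B d)ᵀ)}) :=
        measure_mono fun d hd => many_or hC hD hd.1 hd.2
    _ ≤ _ := measure_union_le _ _
    _ ≤ _ := add_le_add h1 h2
    _ = ENNReal.ofReal (2 * (8192 / 45) * Real.sqrt (Fintype.card R * Fintype.card Q) * t / σ) := by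
        rw [← ENNReal.ofReal_add (by positivity) (by positivity)]
        congr 1
        rw [mul_comm (Fintype.card Q : ℝ)]
        ring
    _ ≤ _ := by
        apply ENNReal.ofReal_le_ofReal
        apply div_le_div_of_nonneg_right _ hσ.le
        apply mul_le_mul_of_nonneg_right _ ht
        apply mul_le_mul_of_nonneg_right _ (Real.sqrt_nonneg _)
        norm_num

end Pool.Agent.H89.SC
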