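import Pool.Agent.H89.SC.Noise

/-!
# Lower bounds for the expected logarithm of the condition number
-/

set_option autoImplicit false

open Set Matrix MeasureTheory ProbabilityTheory
open scoped ENNReal NNReal

namespace Pool.Agent.H89.SC

open Pool.Agent.H836R3 Pool.Agent.Y325.SC

variable {m n : ℕ}

/-- a half-space -/
def hs (i : Fin m) : Set (Fin m → ℝ) := {y | 0 ≤ y i}

lemma cone_hs (i : Fin m) : IsClosedConvexCone (hs i) where
  closed := isClosed_le continuous_const (continuous_apply i)
  convex := by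
    intro x hx y hy a b ha hb _
    have h1 : 0 ≤ x i := hx
    have h2 : 0 ≤ y i := hy
    show 0 ≤ (a • x + b • y) i
    simp only [Pi.add_apply, Pi.smul_apply, smul_eq_mul]
    positivity
  nonempty := ⟨0, le_refl (0 : ℝ)⟩
  smul_mem := by
    intro t ht x hx
    have h1 : 0 ≤ x i := hx
    show 0 ≤ (t • x) i
    simp only [Pi.smul_apply, smul_eq_mul]
    positivity

lemma cone_zero : IsClosedConvexCone ({0} : Set (Fin n → ℝ)) where
  closed := isClosed_singleton
  convex := convex_singleton _
  nonempty := singleton_nonempty _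
  smul_mem := by
    intro t _ x hx
    rw [mem_singleton_iff] at hx ⊢
    rw [hx, smul_zero]

lemma feas_iff (i : Fin m) (d : Data m n) :
    PrimalFeasible (hs i) {0} d ↔ d (Sum.inr (Sum.inl i)) ≤ 0 := by
  unfold PrimalFeasible
  constructor
  · rintro ⟨x, hx, h⟩
    rw [mem_singleton_iff] at hx
    rw [hx, mulVec_zero, zero_sub] at h
    have h' : 0 ≤ (-vecB d) i := h
    simp only [Pi.neg_apply, vecB] at h'
    linarith
  · intro h
    refine ⟨0, rfl, ?_⟩
    rw [mulVec_zero, zero_sub]
    show 0 ≤ (-vecB d) i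
    simp only [Pi.neg_apply, vecB]
    linarith

lemma frob_single (k : (Fin m × Fin n) ⊕ (Fin m ⊕ Fin n)) (s : ℝ) :
    frob (Pi.single k s : Data m n) = |s| := by
  unfold frob
  have : ∑ j, (Pi.single k s : Data m n) j ^ 2 = s ^ 2 := by
    rw [Finset.sum_eq_single k]
    · rw [Pi.single_eq_same]
    · intro j _ hj
      rw [Pi.single_eq_of_ne hj]
      norm_num
    · intro h
      exact absurd (Finset.mem_univ k) h
  rw [this, Real.sqrt_sq_eq_abs]

lemma le_frob (d : Data m n) (k : (Fin m × Fin n) ⊕ (Fin m ⊕ Fin n)) : |d k| ≤ frob d := by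
  unfold frob
  apply Real.le_sqrt_of_sq_le
  rw [sq_abs]
  exact Finset.single_le_sum (f := fun k => d k ^ 2) (fun _ _ => sq_nonneg _) (Finset.mem_univ k)

lemma rho_le (i : Fin m) (d : Data m n) :
    rho (hs i) {0} d ≤ ENNReal.ofReal |d (Sum.inr (Sum.inl i))| := by
  refine iSup₂_le fun δ hδ => ?_
  by_contra hlt
  rw [not_le] at hlt
  set b : ℝ := d (Sum.inr (Sum.inl i)) with hb
  have hlt' : |b| < δ := by
    have h1 : ENNReal.ofReal |b| < ENNReal.ofReal δ := by
      rwa [ENNReal.ofReal_coe_nnreal]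
    exact (ENNReal.ofReal_lt_ofReal_iff_of_nonneg (abs_nonneg b)).1 h1
  rcases le_or_gt b 0 with h0 | h0
  · set s : ℝ := -b + (δ - |b|) with hsd
    have hb' : |b| = -b := abs_of_nonpos h0
    have hδ0 : (0 : ℝ) ≤ δ := NNReal.coe_nonneg δ
    have hs0 : |s| ≤ δ := by
      rw [hsd, hb', abs_of_nonneg (by linarith)]
      linarith
    have h := (hδ (Pi.single (Sum.inr (Sum.inl i)) s) (by rw [frob_single]; exact hs0)).1
    rw [feas_iff, feas_iff, Pi.add_apply, Pi.single_eq_same, ← hb] at h
    have := h.2 h0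
    rw [hsd] at this
    linarith
  · have h := (hδ (Pi.single (Sum.inr (Sum.inl i)) (-b))
      (by rw [frob_single, abs_neg]; exact hlt'.le)).1
    rw [feas_iff, feas_iff, Pi.add_apply, Pi.single_eq_same, ← hb] at h
    have := h.1 (by linarith)
    linarith

lemma le_cond (i : Fin m) (d : Data m n) {x : ℝ} (hx : 0 < x)
    (h : x * |d (Sum.inr (Sum.inl i))| ≤ frob d) :
    ENNReal.ofReal x ≤ condNum (hs i) {0} d := by
  unfold condNum
  split_ifs with h0
  · exact le_top
  · have hr := rho_le i d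
    rw [ENNReal.le_div_iff_mul_le (Or.inl h0)
      (Or.inl (ne_top_of_le_ne_top ENNReal.ofReal_ne_top hr))]
    calc ENNReal.ofReal x * rho (hs i) {0} d
        ≤ ENNReal.ofReal x * ENNReal.ofReal |d (Sum.inr (Sum.inl i))| := by gcongr
      _ = ENNReal.ofReal (x * |d (Sum.inr (Sum.inl i))|) := (ENNReal.ofReal_mul hx.le).symm
      _ ≤ _ := ENNReal.ofReal_le_ofReal h

lemma log_cond_nonneg (i : Fin m) (d : Data m n) :
    0 ≤ ENNReal.log (condNum (hs i) {0} d) := by
  have h := le_cond i d zero_lt_one (by rw [one_mul]; exact le_frob d _)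
  have h2 := ENNReal.log_monotone h
  rw [ENNReal.log_ofReal_of_pos zero_lt_one, Real.log_one] at h2
  exact_mod_cast h2

lemma le_log_cond (i : Fin m) (d : Data m n) {x : ℝ} (hx : 0 < x)
    (h : x * |d (Sum.inr (Sum.inl i))| ≤ frob d) :
    ENNReal.ofReal (Real.log x) ≤ (ENNReal.log (condNum (hs i) {0} d)).toENNReal := by
  have h2 := ENNReal.log_monotone (le_cond i d hx h)
  rw [ENNReal.log_ofReal_of_pos hx] at h2
  have h3 := EReal.toENNReal_le_toENNReal h2
  rwa [EReal.toENNReal_of_ne_top (EReal.coe_ne_top _), EReal.toReal_coe] at h3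

lemma expect_eq (i : Fin m) (μ : Measure (Data m n)) :
    expect μ (fun d => ENNReal.log (condNum (hs i) {0} d)) =
      ((∫⁻ d, (ENNReal.log (condNum (hs i) {0} d)).toENNReal ∂μ : ℝ≥0∞) : EReal) := by
  unfold expect
  have : ∀ d : Data m n, (-ENNReal.log (condNum (hs i) {0} d)).toENNReal = 0 := by
    intro d
    apply EReal.toENNReal_of_nonpos
    rw [EReal.neg_le]
    simpa using log_cond_nonneg i d
  simp [this]

/-- the first absolute moment of a normalised centred entry -/
lemma moment_entry (a : Data m n) {σ : ℝ} (hσ : 0 < σ)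
    (k : (Fin m × Fin n) ⊕ (Fin m ⊕ Fin n)) (ha : a k = 0) :
    ∫⁻ d : Data m n, ENNReal.ofReal (|d k| / σ) ∂(gaussPi a σ) ≤ 1 := by
  have h1 : ∫⁻ d : Data m n, ENNReal.ofReal (|d k| / σ) ∂(gaussPi a σ) =
      ∫⁻ x, ENNReal.ofReal (|x| / σ) ∂(gaussianReal (a k) (Real.toNNReal (σ ^ 2))) :=
    (measurePreserving_eval (fun k => gaussianReal (a k) (Real.toNNReal (σ ^ 2))) k).lintegral_comp
      (f := fun x : ℝ => ENNReal.ofReal (|x| / σ)) (by fun_prop)
  rw [h1, ha]
  calc _ ≤ ∫⁻ x, (ENNReal.ofReal (1 / 2) + ENNReal.ofReal (1 / (2 * σ ^ 2)) * ENNReal.ofReal (x ^ 2))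
        ∂(gaussianReal 0 (Real.toNNReal (σ ^ 2))) := by
        apply lintegral_mono
        intro x
        dsimp only
        rw [← ENNReal.ofReal_mul (by positivity), ← ENNReal.ofReal_add (by norm_num) (by positivity)]
        apply ENNReal.ofReal_le_ofReal
        have h2 : 1 / 2 + 1 / (2 * σ ^ 2) * x ^ 2 - |x| / σ = (1 - |x| / σ) ^ 2 / 2 := by
          rw [← sq_abs x]
          field_simp
          ring
        nlinarith [sq_nonneg (1 - |x| / σ)]
    _ = ENNReal.ofReal (1 / 2) + ENNReal.ofReal (1 / (2 * σ ^ 2)) * ENNReal.ofReal (0 ^ 2 + σ ^ 2) := by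
        rw [lintegral_add_left measurable_const, lintegral_const_mul _ (by fun_prop),
          lintegral_sq_gaussian 0 hσ]
        simp
    _ ≤ 1 := by
        rw [← ENNReal.ofReal_mul (by positivity), ← ENNReal.ofReal_add (by norm_num) (by positivity),
          ← ENNReal.ofReal_one]
        apply ENNReal.ofReal_le_ofReal
        have : 1 / (2 * σ ^ 2) * (0 ^ 2 + σ ^ 2) = 1 / 2 := by
          field_simp
          ring
        linarith

/-- an entry with centre one is rarely below one half -/
lemma small_entry (a : Data m n) {σ : ℝ} (hσ : 0 < σ)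
    (k : (Fin m × Fin n) ⊕ (Fin m ⊕ Fin n)) (ha : a k = 1) :
    gaussPi a σ {d : Data m n | d k < 1 / 2} ≤ ENNReal.ofReal (4 * σ ^ 2) := by
  have hmap : Measure.map (fun x : ℝ => x - 1) (gaussianReal 1 (Real.toNNReal (σ ^ 2))) =
      gaussianReal 0 (Real.toNNReal (σ ^ 2)) := by
    rw [gaussianReal_map_sub_const]
    simp
  have hsub : {d : Data m n | d k < 1 / 2} ⊆
      {d | ENNReal.ofReal (1 / 4) ≤ ENNReal.ofReal ((d k - 1) ^ 2)} := by
    intro d hd
    have hd' : d k < 1 / 2 := hd
    apply ENNReal.ofReal_le_ofReal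
    nlinarith
  have hint : ∫⁻ d : Data m n, ENNReal.ofReal ((d k - 1) ^ 2) ∂(gaussPi a σ) =
      ENNReal.ofReal (σ ^ 2) := by
    have h1 : ∫⁻ d : Data m n, ENNReal.ofReal ((d k - 1) ^ 2) ∂(gaussPi a σ) =
        ∫⁻ x, ENNReal.ofReal ((x - 1) ^ 2) ∂(gaussianReal (a k) (Real.toNNReal (σ ^ 2))) :=
      (measurePreserving_eval (fun k => gaussianReal (a k) (Real.toNNReal (σ ^ 2)))
        k).lintegral_comp (f := fun x : ℝ => ENNReal.ofReal ((x - 1) ^ 2)) (by fun_prop)
    rw [h1, ha]
    have h2 := lintegral_sq_gaussian 0 hσ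
    rw [← hmap, lintegral_map (by fun_prop) (by fun_prop)] at h2
    rw [h2]
    congr 1
    ring
  calc _ ≤ gaussPi a σ {d : Data m n | ENNReal.ofReal (1 / 4) ≤ ENNReal.ofReal ((d k - 1) ^ 2)} :=
        measure_mono hsub
    _ ≤ (∫⁻ d : Data m n, ENNReal.ofReal ((d k - 1) ^ 2) ∂(gaussPi a σ)) / ENNReal.ofReal (1 / 4) :=
        meas_ge_le_lintegral_div (Measurable.aemeasurable (by fun_prop))
          (ENNReal.ofReal_pos.2 (by norm_num)).ne'
          ENNReal.ofReal_ne_top
    _ = ENNReal.ofReal (4 * σ ^ 2) := by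
        rw [hint, ← ENNReal.ofReal_div_of_pos (by norm_num)]
        congr 1
        ring

/-- **Lower bound in `σ`.** -/
theorem lower_sigma (i : Fin m) (j : Fin n) {σ : ℝ} (hσ : 0 < σ) :
    ((Real.log (1 / σ) - 3 : ℝ) : EReal) ≤
      expect (gaussPi (Pi.single (Sum.inr (Sum.inr j)) 1 : Data m n) σ)
        (fun d => ENNReal.log (condNum (hs i) {0} d)) := by
  set a : Data m n := Pi.single (Sum.inr (Sum.inr j)) 1 with ha
  have ha1 : a (Sum.inr (Sum.inr j)) = 1 := by rw [ha, Pi.single_eq_same]
  have ha0 : a (Sum.inr (Sum.inl i)) = 0 := by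
    rw [ha, Pi.single_eq_of_ne (by simp)]
  rw [expect_eq]
  set B : ℝ := Real.log (1 / (2 * σ)) with hB
  set I : ℝ≥0∞ := ∫⁻ d, (ENNReal.log (condNum (hs i) {0} d)).toENNReal ∂(gaussPi a σ) with hI
  have hpt : ∀ d : Data m n, ENNReal.ofReal B ≤
      (ENNReal.log (condNum (hs i) {0} d)).toENNReal +
        ENNReal.ofReal (|d (Sum.inr (Sum.inl i))| / σ) +
        {d : Data m n | d (Sum.inr (Sum.inr j)) < 1 / 2}.indicator
          (fun _ => ENNReal.ofReal B) d := by
    intro d
    by_cases hc : d (Sum.inr (Sum.inr j)) < 1 / 2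
    · rw [Set.indicator_of_mem (show d ∈ {d : Data m n | d (Sum.inr (Sum.inr j)) < 1 / 2} from hc)]
      exact le_add_self
    · rw [not_lt] at hc
      set b : ℝ := d (Sum.inr (Sum.inl i)) with hb
      refine le_trans ?_ le_self_add
      have hc1 : 1 / 2 ≤ frob d := by
        have := le_frob d (Sum.inr (Sum.inr j))
        rw [abs_of_nonneg (by linarith)] at this
        linarith
      rcases eq_or_ne b 0 with hb0 | hb0
      · have h1 : ∀ N : ℕ, (N : ℝ≥0∞) ≤
            (ENNReal.log (condNum (hs i) {0} d)).toENNReal := by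
          intro N
          have h2 := le_log_cond i d (x := Real.exp N) (Real.exp_pos _)
            (by rw [← hb, hb0, abs_zero, mul_zero]; linarith)
          rw [Real.log_exp, ENNReal.ofReal_natCast] at h2
          exact h2
        have h3 : (ENNReal.log (condNum (hs i) {0} d)).toENNReal = ⊤ :=
          ENNReal.eq_top_of_forall_nnreal_le fun r => by
            obtain ⟨N, hN⟩ := exists_nat_ge r
            exact le_trans (by exact_mod_cast hN) (h1 N)
        rw [h3, top_add]
        exact le_top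
      · have hb1 : 0 < |b| := abs_pos.2 hb0
        have h1 := le_log_cond i d (x := 1 / (2 * |b|)) (by positivity) (by
          rw [← hb]
          have : 1 / (2 * |b|) * |b| = 1 / 2 := by field_simp
          rw [this]
          exact hc1)
        have h2 : B ≤ Real.log (1 / (2 * |b|)) + |b| / σ := by
          have e1 : Real.log (1 / (2 * |b|)) = B - Real.log (|b| / σ) := by
            rw [hB, ← Real.log_div (by positivity) (by positivity)]
            congr 1
            field_simp
          have e2 : Real.log (|b| / σ) ≤ |b| / σ - 1 := Real.log_le_sub_one_of_pos (by positivity)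
          linarith
        calc ENNReal.ofReal B ≤ ENNReal.ofReal (Real.log (1 / (2 * |b|)) + |b| / σ) :=
              ENNReal.ofReal_le_ofReal h2
          _ ≤ _ := ENNReal.ofReal_add_le
          _ ≤ _ := add_le_add h1 le_rfl
  have hmeas : MeasurableSet {d : Data m n | d (Sum.inr (Sum.inr j)) < 1 / 2} :=
    measurableSet_lt (by fun_prop) measurable_const
  have hint : ENNReal.ofReal B ≤ I + 1 + ENNReal.ofReal B * ENNReal.ofReal (4 * σ ^ 2) := by
    calc ENNReal.ofReal B = ∫⁻ _d : Data m n, ENNReal.ofReal B ∂(gaussPi a σ) := by simp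
      _ ≤ ∫⁻ d : Data m n, ((ENNReal.log (condNum (hs i) {0} d)).toENNReal +
        ENNReal.ofReal (|d (Sum.inr (Sum.inl i))| / σ) +
        {d : Data m n | d (Sum.inr (Sum.inr j)) < 1 / 2}.indicator
          (fun _ => ENNReal.ofReal B) d) ∂(gaussPi a σ) := lintegral_mono hpt
      _ = I + ∫⁻ d : Data m n, ENNReal.ofReal (|d (Sum.inr (Sum.inl i))| / σ) ∂(gaussPi a σ) +
          ENNReal.ofReal B * gaussPi a σ {d : Data m n | d (Sum.inr (Sum.inr j)) < 1 / 2} := by
          rw [lintegral_add_right _ (measurable_const.indicator hmeas),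
            lintegral_add_right _ (by fun_prop), lintegral_indicator hmeas, setLIntegral_const]
      _ ≤ _ := by
          gcongr
          · exact moment_entry a hσ _ ha0
          · exact small_entry a hσ _ ha1
  have hB2 : ENNReal.ofReal B * ENNReal.ofReal (4 * σ ^ 2) ≤ 1 := by
    rcases le_total B 0 with h0 | h0
    · rw [ENNReal.ofReal_of_nonpos h0, zero_mul]
      exact zero_le_one
    · rw [← ENNReal.ofReal_mul h0, ← ENNReal.ofReal_one]
      apply ENNReal.ofReal_le_ofReal
      have e1 : B ≤ 1 / (2 * σ) := by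
        have := Real.log_le_sub_one_of_pos (show 0 < 1 / (2 * σ) by positivity)
        linarith
      have e2 : 1 ≤ 1 / (2 * σ) := by
        by_contra hcon
        rw [not_le] at hcon
        have := Real.log_neg (show 0 < 1 / (2 * σ) by positivity) hcon
        linarith
      have e3 : 2 * σ ≤ 1 := by
        rw [le_div_iff₀ (by positivity)] at e2
        linarith
      calc B * (4 * σ ^ 2) ≤ 1 / (2 * σ) * (4 * σ ^ 2) :=
            mul_le_mul_of_nonneg_right e1 (by positivity)
        _ = 2 * σ := by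
            field_simp
            ring
        _ ≤ 1 := e3
  have hfin : ENNReal.ofReal B ≤ I + ENNReal.ofReal 2 := by
    calc ENNReal.ofReal B ≤ I + 1 + 1 := hint.trans (by gcongr)
      _ = I + ENNReal.ofReal 2 := by
          rw [add_assoc, ENNReal.ofReal_ofNat]
          norm_num
  have h2 : ENNReal.ofReal (B - 2) ≤ I := by
    rw [ENNReal.ofReal_sub _ (by norm_num)]
    exact tsub_le_iff_right.2 hfin
  have h3 : Real.log (1 / σ) - 3 ≤ B - 2 := by
    have e1 : B = Real.log (1 / σ) - Real.log 2 := by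
      rw [hB, ← Real.log_div (by positivity) (by positivity)]
      congr 1
      field_simp
    have := Real.log_two_lt_d9
    linarith
  calc ((Real.log (1 / σ) - 3 : ℝ) : EReal) ≤ ((B - 2 : ℝ) : EReal) := by exact_mod_cast h3
    _ ≤ ((ENNReal.ofReal (B - 2) : ℝ≥0∞) : EReal) := by
        rw [EReal.coe_ennreal_ofReal]
        exact_mod_cast le_max_left _ _
    _ ≤ _ := EReal.coe_ennreal_le_coe_ennreal_iff.2 h2

end Pool.Agent.H89.SC
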