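import Pool.Agent.H89.SC.Lower

/-!
# Lower bound in the dimension
-/

set_option autoImplicit false

open Set Matrix MeasureTheory ProbabilityTheory
open scoped ENNReal NNReal

namespace Pool.Agent.H89.SC

open Pool.Agent.H836R3 Pool.Agent.Y325.SC

variable {m n : ℕ}

/-- the positive part of `log (σ / |d k|)` -/
noncomputable def Lk (σ : ℝ) (k : (Fin m × Fin n) ⊕ (Fin m ⊕ Fin n)) (d : Data m n) : ℝ≥0∞ :=
  (ENNReal.log (ENNReal.ofReal σ / ‖d k‖ₑ)).toENNReal

lemma measurable_ratio (σ : ℝ) (k : (Fin m × Fin n) ⊕ (Fin m ⊕ Fin n)) :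
    Measurable fun d : Data m n => ENNReal.ofReal σ / ‖d k‖ₑ :=
  measurable_const.div (by fun_prop)

lemma measurable_Lk (σ : ℝ) (k : (Fin m × Fin n) ⊕ (Fin m ⊕ Fin n)) :
    Measurable (Lk σ k : Data m n → ℝ≥0∞) :=
  measurable_ereal_toENNReal.comp (ENNReal.log_monotone.measurable.comp (measurable_ratio σ k))

lemma Lk_zero {σ : ℝ} (hσ : 0 < σ) (k : (Fin m × Fin n) ⊕ (Fin m ⊕ Fin n)) {d : Data m n}
    (h : d k = 0) : Lk σ k d = ⊤ := by
  unfold Lk
  rw [h, enorm_zero, ENNReal.div_zero (ENNReal.ofReal_pos.2 hσ).ne']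
  simp

lemma Lk_eq {σ : ℝ} (hσ : 0 < σ) (k : (Fin m × Fin n) ⊕ (Fin m ⊕ Fin n)) {d : Data m n}
    (h : d k ≠ 0) : Lk σ k d = ENNReal.ofReal (Real.log (σ / |d k|)) := by
  unfold Lk
  have h1 : 0 < |d k| := abs_pos.2 h
  rw [← ofReal_norm, Real.norm_eq_abs, ← ENNReal.ofReal_div_of_pos h1,
    ENNReal.log_ofReal_of_pos (by positivity), EReal.toENNReal_of_ne_top (EReal.coe_ne_top _),
    EReal.toReal_coe]

lemma lintegral_Lk (a : Data m n) {σ : ℝ} (hσ : 0 < σ)
    (k : (Fin m × Fin n) ⊕ (Fin m ⊕ Fin n)) :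
    ∫⁻ d : Data m n, Lk σ k d ∂(gaussPi a σ) ≤ 2 := by
  have htail : ∀ t : ℝ, 0 < t → gaussPi a σ
      {d : Data m n | ENNReal.ofReal t ≤ ENNReal.ofReal σ / ‖d k‖ₑ} ≤ ENNReal.ofReal (1 / t) := by
    intro t ht
    have hsub : {d : Data m n | ENNReal.ofReal t ≤ ENNReal.ofReal σ / ‖d k‖ₑ} ⊆
        {d | |d k| ≤ σ / t} := by
      intro d hd
      have h1 : ENNReal.ofReal t * ‖d k‖ₑ ≤ ENNReal.ofReal σ := ENNReal.mul_le_of_le_div hd
      rw [← ofReal_norm, Real.norm_eq_abs, ← ENNReal.ofReal_mul ht.le] at h1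
      have h2 := (ENNReal.ofReal_le_ofReal_iff hσ.le).1 h1
      show |d k| ≤ σ / t
      rw [le_div_iff₀ ht]
      linarith
    have hW : ∑ j, (Pi.single k (1 : ℝ) : Data m n) j ^ 2 = 1 := by
      rw [Finset.sum_eq_single k]
      · simp
      · intro j _ hj
        rw [Pi.single_eq_of_ne hj]
        norm_num
      · intro h
        exact absurd (Finset.mem_univ k) h
    refine (measure_mono hsub).trans ((gaussPi_dir_le' a hσ (Pi.single k (1 : ℝ) : Data m n) hW _
      (measurableSet_le (by fun_prop) measurable_const) (L := 2 * (σ / t)) ?_).trans ?_)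
    · intro d s s' h1 h2
      have h1' : |d k + s| ≤ σ / t := by
        have h3 : |(d + s • (Pi.single k (1 : ℝ) : Data m n)) k| ≤ σ / t := h1
        simpa using h3
      have h2' : |d k + s'| ≤ σ / t := by
        have h3 : |(d + s' • (Pi.single k (1 : ℝ) : Data m n)) k| ≤ σ / t := h2
        simpa using h3
      rw [abs_le] at h1' h2' ⊢
      constructor <;> linarith
    · apply ENNReal.ofReal_le_ofReal
      rw [div_le_iff₀ hσ]
      have : 1 / t * σ = σ / t := by ring
      rw [this]
      have : 0 < σ / t := by positivity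
      linarith
  have h := Pool.Agent.Y980.SC.logm (gaussPi a σ) _ (measurable_ratio σ k) (le_refl (1 : ℝ)) htail
  rw [Real.log_one, zero_add, ENNReal.ofReal_ofNat] at h
  exact h

/-- the concavity of the logarithm -/
lemma log_mean {ι : Type} [Fintype ι] [Nonempty ι] (x : ι → ℝ) (hx : ∀ k, 0 < x k) :
    Real.log (Fintype.card ι) + (Fintype.card ι : ℝ)⁻¹ * ∑ k, Real.log (x k) ≤
      Real.log (∑ k, x k) := by
  have hN : (0 : ℝ) < Fintype.card ι := by exact_mod_cast Fintype.card_pos
  have h := strictConcaveOn_log_Ioi.concaveOn.le_map_sum (t := Finset.univ)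
    (w := fun _ : ι => (Fintype.card ι : ℝ)⁻¹) (p := x) (fun _ _ => by positivity)
    (by rw [Finset.sum_const, Finset.card_univ, nsmul_eq_mul, mul_inv_cancel₀ hN.ne'])
    (fun k _ => hx k)
  simp only [smul_eq_mul] at h
  rw [← Finset.mul_sum, ← Finset.mul_sum] at h
  have hS : 0 < ∑ k, x k := Finset.sum_pos (fun k _ => hx k) Finset.univ_nonempty
  rw [Real.log_mul (by positivity) hS.ne', Real.log_inv] at h
  linarith

/-- **Lower bound in the dimension.** -/
theorem lower_dim (i : Fin m) (j : Fin n) {σ : ℝ} (hσ : 0 < σ) :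
    ((1 / 2 * Real.log (m * n) - 3 : ℝ) : EReal) ≤
      expect (gaussPi (0 : Data m n) σ) (fun d => ENNReal.log (condNum (hs i) {0} d)) := by
  have hne : Nonempty (Fin m × Fin n) := ⟨(i, j)⟩
  rw [expect_eq]
  set B : ℝ := 1 / 2 * Real.log (m * n) with hB
  set N : ℝ := (Fintype.card (Fin m × Fin n) : ℝ) with hN
  have hNmn : N = m * n := by rw [hN]; simp
  have hN0 : 0 < N := by rw [hN]; exact_mod_cast Fintype.card_pos
  set I : ℝ≥0∞ := ∫⁻ d, (ENNReal.log (condNum (hs i) {0} d)).toENNReal ∂(gaussPi 0 σ) with hI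
  have hpt : ∀ d : Data m n, ENNReal.ofReal B ≤
      (ENNReal.log (condNum (hs i) {0} d)).toENNReal +
        ENNReal.ofReal (|d (Sum.inr (Sum.inl i))| / σ) +
        ENNReal.ofReal N⁻¹ * ∑ p : Fin m × Fin n, Lk σ (Sum.inl p) d := by
    intro d
    by_cases hz : ∃ p : Fin m × Fin n, d (Sum.inl p) = 0
    · obtain ⟨p, hp⟩ := hz
      have h1 : ∑ p : Fin m × Fin n, Lk σ (Sum.inl p) d = ⊤ := by
        rw [ENNReal.sum_eq_top]
        exact ⟨p, Finset.mem_univ _, Lk_zero hσ _ hp⟩
      rw [h1, ENNReal.mul_top (ENNReal.ofReal_pos.2 (by positivity)).ne', add_top]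
      exact le_top
    · push Not at hz
      set b : ℝ := d (Sum.inr (Sum.inl i)) with hb
      set S : ℝ := ∑ p : Fin m × Fin n, d (Sum.inl p) ^ 2 with hS
      have hSpos : 0 < S := Finset.sum_pos (fun p _ => by
        have := hz p
        positivity) Finset.univ_nonempty
      have hSf : Real.sqrt S ≤ frob d := by
        unfold frob
        apply Real.sqrt_le_sqrt
        rw [Fintype.sum_sum_type]
        have : 0 ≤ ∑ k : Fin m ⊕ Fin n, d (Sum.inr k) ^ 2 :=
          Finset.sum_nonneg fun _ _ => sq_nonneg _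
        linarith
      have hsS : 0 < Real.sqrt S := Real.sqrt_pos.2 hSpos
      rcases eq_or_ne b 0 with hb0 | hb0
      · have h1 : ∀ M : ℕ, (M : ℝ≥0∞) ≤
            (ENNReal.log (condNum (hs i) {0} d)).toENNReal := by
          intro M
          have h2 := le_log_cond i d (x := Real.exp M) (Real.exp_pos _)
            (by rw [← hb, hb0, abs_zero, mul_zero]; linarith)
          rw [Real.log_exp, ENNReal.ofReal_natCast] at h2
          exact h2
        have h3 : (ENNReal.log (condNum (hs i) {0} d)).toENNReal = ⊤ :=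
          ENNReal.eq_top_of_forall_nnreal_le fun r => by
            obtain ⟨M, hM⟩ := exists_nat_ge r
            exact le_trans (by exact_mod_cast hM) (h1 M)
        rw [h3, top_add, top_add]
        exact le_top
      · have hb1 : 0 < |b| := abs_pos.2 hb0
        have h1 := le_log_cond i d (x := Real.sqrt S / |b|) (by positivity) (by
          rw [← hb, div_mul_cancel₀ _ hb1.ne']
          exact hSf)
        have hlog := log_mean (fun p : Fin m × Fin n => d (Sum.inl p) ^ 2)
          (fun p => by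
            have := hz p
            positivity)
        rw [← hS, ← hN] at hlog
        have hsum : ∑ p : Fin m × Fin n, Real.log (d (Sum.inl p) ^ 2) =
            2 * (N * Real.log σ) - 2 * ∑ p : Fin m × Fin n, Real.log (σ / |d (Sum.inl p)|) := by
          have e : ∀ p : Fin m × Fin n, Real.log (d (Sum.inl p) ^ 2) =
              2 * Real.log σ - 2 * Real.log (σ / |d (Sum.inl p)|) := by
            intro p
            have hp : 0 < |d (Sum.inl p)| := abs_pos.2 (hz p)
            rw [← sq_abs, Real.log_pow, Real.log_div hσ.ne' hp.ne']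
            push_cast
            ring
          simp_rw [e]
          rw [Finset.sum_sub_distrib, ← Finset.mul_sum, ← Finset.mul_sum, Finset.sum_const,
            Finset.card_univ, nsmul_eq_mul]
        have hmax : ∑ p : Fin m × Fin n, Real.log (σ / |d (Sum.inl p)|) ≤
            ∑ p : Fin m × Fin n, max (Real.log (σ / |d (Sum.inl p)|)) 0 :=
          Finset.sum_le_sum fun p _ => le_max_left _ _
        set T : ℝ := ∑ p : Fin m × Fin n, max (Real.log (σ / |d (Sum.inl p)|)) 0 with hT
        have h2 : B ≤ Real.log (Real.sqrt S / |b|) + |b| / σ + N⁻¹ * T := by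
          have e1 : Real.log (Real.sqrt S / |b|) = 1 / 2 * Real.log S - Real.log |b| := by
            rw [Real.log_div hsS.ne' hb1.ne', Real.log_sqrt hSpos.le]
            ring
          have e2 : Real.log |b| - Real.log σ ≤ |b| / σ := by
            rw [← Real.log_div hb1.ne' hσ.ne']
            have := Real.log_le_sub_one_of_pos (show 0 < |b| / σ by positivity)
            linarith
          have e3 : 1 / 2 * Real.log N + Real.log σ - N⁻¹ * T ≤ 1 / 2 * Real.log S := by
            rw [hsum] at hlog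
            have e4 : N⁻¹ * (2 * (N * Real.log σ) -
                2 * ∑ p : Fin m × Fin n, Real.log (σ / |d (Sum.inl p)|)) =
                2 * Real.log σ - 2 * (N⁻¹ * ∑ p : Fin m × Fin n, Real.log (σ / |d (Sum.inl p)|)) := by
              field_simp
            rw [e4] at hlog
            have e5 : N⁻¹ * ∑ p : Fin m × Fin n, Real.log (σ / |d (Sum.inl p)|) ≤ N⁻¹ * T :=
              mul_le_mul_of_nonneg_left hmax (by positivity)
            linarith
          have e6 : B = 1 / 2 * Real.log N := by rw [hB, hNmn]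
          linarith
        have hT0 : 0 ≤ T := Finset.sum_nonneg fun p _ => le_max_right _ _
        have h3 : ENNReal.ofReal (N⁻¹ * T) =
            ENNReal.ofReal N⁻¹ * ∑ p : Fin m × Fin n, Lk σ (Sum.inl p) d := by
          rw [ENNReal.ofReal_mul (by positivity), hT,
            ENNReal.ofReal_sum_of_nonneg fun p _ => le_max_right _ _]
          congr 1
          refine Finset.sum_congr rfl fun p _ => ?_
          rw [Lk_eq hσ _ (hz p)]
          rcases le_total (Real.log (σ / |d (Sum.inl p)|)) 0 with h | h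
          · rw [max_eq_right h, ENNReal.ofReal_zero, ENNReal.ofReal_of_nonpos h]
          · rw [max_eq_left h]
        calc ENNReal.ofReal B ≤ ENNReal.ofReal (Real.log (Real.sqrt S / |b|) + |b| / σ + N⁻¹ * T) :=
              ENNReal.ofReal_le_ofReal h2
          _ ≤ ENNReal.ofReal (Real.log (Real.sqrt S / |b|) + |b| / σ) + ENNReal.ofReal (N⁻¹ * T) :=
              ENNReal.ofReal_add_le
          _ ≤ ENNReal.ofReal (Real.log (Real.sqrt S / |b|)) + ENNReal.ofReal (|b| / σ) +
              ENNReal.ofReal (N⁻¹ * T) := by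
              gcongr
              exact ENNReal.ofReal_add_le
          _ ≤ _ := by
              rw [h3]
              gcongr
  have hint : ENNReal.ofReal B ≤ I + 1 + 2 := by
    calc ENNReal.ofReal B = ∫⁻ _d : Data m n, ENNReal.ofReal B ∂(gaussPi 0 σ) := by simp
      _ ≤ ∫⁻ d : Data m n, ((ENNReal.log (condNum (hs i) {0} d)).toENNReal +
        ENNReal.ofReal (|d (Sum.inr (Sum.inl i))| / σ) +
        ENNReal.ofReal N⁻¹ * ∑ p : Fin m × Fin n, Lk σ (Sum.inl p) d) ∂(gaussPi 0 σ) :=
          lintegral_mono hpt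
      _ = I + ∫⁻ d : Data m n, ENNReal.ofReal (|d (Sum.inr (Sum.inl i))| / σ) ∂(gaussPi 0 σ) +
          ENNReal.ofReal N⁻¹ * ∑ p : Fin m × Fin n,
            ∫⁻ d : Data m n, Lk σ (Sum.inl p) d ∂(gaussPi 0 σ) := by
          have hms : Measurable fun d : Data m n => ∑ p : Fin m × Fin n, Lk σ (Sum.inl p) d :=
            Finset.measurable_sum _ fun p _ => measurable_Lk σ _
          rw [lintegral_add_right _ (hms.const_mul _), lintegral_add_right _ (by fun_prop),
            lintegral_const_mul _ hms, lintegral_finsetSum _ fun p _ => measurable_Lk σ _]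
      _ ≤ I + 1 + ENNReal.ofReal N⁻¹ * ∑ _p : Fin m × Fin n, (2 : ℝ≥0∞) := by
          gcongr with p
          · exact moment_entry 0 hσ _ rfl
          · exact lintegral_Lk 0 hσ _
      _ = I + 1 + 2 := by
          congr 1
          rw [Finset.sum_const, Finset.card_univ, nsmul_eq_mul, ← mul_assoc,
            ← ENNReal.ofReal_natCast, ← ENNReal.ofReal_mul (by positivity), ← hN,
            inv_mul_cancel₀ hN0.ne', ENNReal.ofReal_one, one_mul]
  have hfin : ENNReal.ofReal B ≤ I + ENNReal.ofReal 3 := by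
    calc ENNReal.ofReal B ≤ I + 1 + 2 := hint
      _ = I + ENNReal.ofReal 3 := by
          rw [add_assoc, ENNReal.ofReal_ofNat]
          norm_num
  have h2 : ENNReal.ofReal (B - 3) ≤ I := by
    rw [ENNReal.ofReal_sub _ (by norm_num)]
    exact tsub_le_iff_right.2 hfin
  calc ((B - 3 : ℝ) : EReal) ≤ ((ENNReal.ofReal (B - 3) : ℝ≥0∞) : EReal) := by
        rw [EReal.coe_ennreal_ofReal]
        exact_mod_cast le_max_left _ _
    _ ≤ _ := EReal.coe_ennreal_le_coe_ennreal_iff.2 h2

end Pool.Agent.H89.SC
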