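import Pool.Agent.H89.SC.Gen2

/-!
# Arbitrary independent noise of scale `σ`
-/

set_option autoImplicit false

open Set Matrix MeasureTheory ProbabilityTheory
open scoped ENNReal NNReal

namespace Pool.Agent.H89.SC

open Pool.Agent.H836R3 Pool.Agent.Y325.SC

/-- The law of `a + σ ξ` for independent `ξ k` of the laws `ν k`. -/
noncomputable def noisy {ι : Type} [Fintype ι] (a : ι → ℝ) (σ : ℝ) (ν : ι → Measure ℝ) :
    Measure (ι → ℝ) :=
  Measure.pi fun k => (ν k).map fun x => a k + σ * x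

lemma measurable_aff (a σ : ℝ) : Measurable fun x : ℝ => a + σ * x := by fun_prop

lemma spread_map {ν : Measure ℝ} (a : ℝ) {σ : ℝ} (hσ : 0 < σ) (hν : Spread ν 1 0) :
    Spread (ν.map fun x => a + σ * x) (1 / σ) 0 := by
  intro x h h0 _
  rw [Measure.map_apply (measurable_aff a σ) measurableSet_Icc]
  have hsub : (fun y : ℝ => a + σ * y) ⁻¹' Icc x (x + h) ⊆ Icc ((x - a) / σ) ((x - a) / σ + h / σ) := by
    intro y hy
    obtain ⟨h1, h2⟩ := hy
    rw [← add_div]
    constructor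
    · rw [div_le_iff₀ hσ]; linarith
    · rw [le_div_iff₀ hσ]; linarith
  refine (measure_mono hsub).trans ((hν _ (h / σ) (by positivity) (by positivity)).trans
    (le_of_eq ?_))
  congr 1
  ring

lemma moment_map {ν : Measure ℝ} [IsProbabilityMeasure ν] (a : ℝ) {σ κ : ℝ} (hσ : 0 < σ)
    (hκ : 0 ≤ κ) (hν : ∫⁻ x, ‖x‖ₑ ∂ν ≤ ENNReal.ofReal κ) :
    ∫⁻ x, ‖x‖ₑ ∂(ν.map fun x => a + σ * x) ≤ ENNReal.ofReal (|a| + σ * κ) := by
  rw [lintegral_map (by fun_prop) (measurable_aff a σ)]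
  calc ∫⁻ x, ‖a + σ * x‖ₑ ∂ν ≤ ∫⁻ x, (ENNReal.ofReal |a| + ENNReal.ofReal σ * ‖x‖ₑ) ∂ν := by
        apply lintegral_mono
        intro x
        calc ‖a + σ * x‖ₑ ≤ ‖a‖ₑ + ‖σ * x‖ₑ := enorm_add_le _ _
          _ = ENNReal.ofReal |a| + ENNReal.ofReal σ * ‖x‖ₑ := by
              rw [enorm_mul, ← ofReal_norm a, ← ofReal_norm σ, Real.norm_eq_abs, Real.norm_eq_abs,
                abs_of_pos hσ]
    _ = ENNReal.ofReal |a| + ENNReal.ofReal σ * ∫⁻ x, ‖x‖ₑ ∂ν := by
        rw [lintegral_add_left measurable_const, lintegral_const_mul _ (by fun_prop)]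
        simp
    _ ≤ ENNReal.ofReal |a| + ENNReal.ofReal σ * ENNReal.ofReal κ := by gcongr
    _ = _ := by
        rw [← ENNReal.ofReal_mul hσ.le, ← ENNReal.ofReal_add (abs_nonneg _) (by positivity)]

variable {m n : ℕ}

lemma sum_abs_le (a : Data m n) :
    ∑ k, |a k| ≤ Real.sqrt (Fintype.card ((Fin m × Fin n) ⊕ (Fin m ⊕ Fin n))) * frob a := by
  have h : (∑ k, |a k|) ^ 2 ≤
      (Fintype.card ((Fin m × Fin n) ⊕ (Fin m ⊕ Fin n)) : ℝ) * ∑ k, a k ^ 2 := by
    have := sq_sum_le_card_mul_sum_sq (s := Finset.univ) (f := fun k => |a k|)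
    simpa using this
  unfold frob
  rw [← Real.sqrt_mul (by positivity)]
  exact Real.le_sqrt_of_sq_le h

lemma log_1104 : Real.log 1104 + 4 ≤ 12 := by
  have h : Real.log 1104 ≤ Real.log (2 ^ (11 : ℕ)) := Real.log_le_log (by norm_num) (by norm_num)
  rw [Real.log_pow] at h
  have := Real.log_two_lt_d9
  push_cast at h
  linarith

/-- The expected logarithm of the condition number for arbitrary independent noise. -/
theorem noise_log (hm : 1 ≤ m) (hn : 1 ≤ n) {C₁ : Set (Fin m → ℝ)} {C₂ : Set (Fin n → ℝ)}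
    (h1 : IsClosedConvexCone C₁) (h2 : IsClosedConvexCone C₂)
    (ν : (Fin m × Fin n) ⊕ (Fin m ⊕ Fin n) → Measure ℝ) [∀ k, IsProbabilityMeasure (ν k)]
    {κ : ℝ} (hκ : 1 ≤ κ) (hν : ∀ k, Spread (ν k) 1 0)
    (hν1 : ∀ k, ∫⁻ x, ‖x‖ₑ ∂(ν k) ≤ ENNReal.ofReal κ) (a : Data m n) (ha : frob a ≤ 1)
    {σ : ℝ} (hσ : 0 < σ) (hσ1 : σ ≤ 1) :
    ∫⁻ d, (ENNReal.log (condNum C₁ C₂ d)).toENNReal ∂(noisy a σ ν) ≤
        ENNReal.ofReal (12 + Real.log κ + 5 / 2 * Real.log (m * n) + Real.log (1 / σ)) ∧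
      expect (noisy a σ ν) (fun d => ENNReal.log (condNum C₁ C₂ d)) ≤
        ((12 + Real.log κ + 5 / 2 * Real.log (m * n) + Real.log (1 / σ) : ℝ) : EReal) := by
  have hm1 : (1 : ℝ) ≤ m := by exact_mod_cast hm
  have hn1 : (1 : ℝ) ≤ n := by exact_mod_cast hn
  have hmn : (1 : ℝ) ≤ (m : ℝ) * n := by nlinarith
  have hs0 : 0 < Real.sqrt ((m : ℝ) * n) := Real.sqrt_pos.2 (by linarith)
  have hprob : ∀ k, IsProbabilityMeasure ((ν k).map fun x => a k + σ * x) := fun k =>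
    Measure.isProbabilityMeasure_map (measurable_aff _ _).aemeasurable
  set N : ℕ := Fintype.card ((Fin m × Fin n) ⊕ (Fin m ⊕ Fin n)) with hNdef
  have hNr : (N : ℝ) = m * n + (m + n) := by rw [hNdef]; simp
  have hN3 : (N : ℝ) ≤ 3 * (m * n) := by rw [hNr]; nlinarith
  have hN1 : (1 : ℝ) ≤ N := by rw [hNr]; nlinarith
  have hsN : Real.sqrt N ≤ N := by
    rw [Real.sqrt_le_left (by linarith)]
    nlinarith
  set M : ℝ := 6 * (m * n) * κ with hM
  have hM0 : 0 < M := by positivity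
  have hM1 : ∑ k, ∫⁻ x, ‖x‖ₑ ∂((ν k).map fun x => a k + σ * x) ≤ ENNReal.ofReal M := by
    calc _ ≤ ∑ k, ENNReal.ofReal (|a k| + σ * κ) :=
          Finset.sum_le_sum fun k _ => moment_map (a k) hσ (by linarith) (hν1 k)
      _ = ENNReal.ofReal (∑ k, (|a k| + σ * κ)) :=
          (ENNReal.ofReal_sum_of_nonneg fun k _ => by positivity).symm
      _ ≤ _ := by
          apply ENNReal.ofReal_le_ofReal
          rw [Finset.sum_add_distrib, Finset.sum_const, Finset.card_univ, nsmul_eq_mul, ← hNdef]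
          have e1 := sum_abs_le a
          rw [← hNdef] at e1
          have e2 : Real.sqrt N * frob a ≤ N := by
            calc Real.sqrt N * frob a ≤ Real.sqrt N * 1 :=
                  mul_le_mul_of_nonneg_left ha (Real.sqrt_nonneg _)
              _ ≤ N := by linarith
          have e3 : σ * κ ≤ κ := by nlinarith
          have e4 : (N : ℝ) * (σ * κ) ≤ N * κ := mul_le_mul_of_nonneg_left e3 (by linarith)
          have e5 : (N : ℝ) ≤ N * κ := by nlinarith
          have e6 : (N : ℝ) * κ ≤ 3 * (m * n) * κ := mul_le_mul_of_nonneg_right hN3 (by linarith)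
          rw [hM]
          linarith
  have hLM : 1 ≤ 1 / σ * M := by
    have e1 : 1 ≤ 1 / σ := by rw [le_div_iff₀ hσ]; linarith
    have e2 : 1 ≤ M := by
      rw [hM]
      nlinarith [mul_le_mul hmn hκ zero_le_one (by linarith : (0 : ℝ) ≤ (m : ℝ) * n)]
    nlinarith
  have hmain := log_gen hm hn h1 h2 (fun k => (ν k).map fun x => a k + σ * x)
    (L := 1 / σ) (M := M) (by positivity) hM0 hLM (fun k => spread_map (a k) hσ (hν k)) hM1
  have hlog : Real.log (184 * ((m : ℝ) * n * Real.sqrt (m * n)) * (1 / σ) * M) + 4 ≤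
      12 + Real.log κ + 5 / 2 * Real.log (m * n) + Real.log (1 / σ) := by
    have e1 : 184 * ((m : ℝ) * n * Real.sqrt (m * n)) * (1 / σ) * M =
        1104 * κ * (((m : ℝ) * n) ^ 2 * Real.sqrt (m * n)) * (1 / σ) := by
      rw [hM]; ring
    have hκ0 : (0 : ℝ) < κ := by linarith
    rw [e1, Real.log_mul (by positivity) (by positivity), Real.log_mul (by positivity) (by positivity),
      Real.log_mul (by norm_num) (by positivity), Real.log_mul (by positivity) (by positivity),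
      Real.log_pow, Real.log_sqrt (by positivity)]
    have := log_1104
    push_cast
    linarith
  have hfin : ∫⁻ d, (ENNReal.log (condNum C₁ C₂ d)).toENNReal ∂(noisy a σ ν) ≤
        ENNReal.ofReal (12 + Real.log κ + 5 / 2 * Real.log (m * n) + Real.log (1 / σ)) :=
    hmain.trans (ENNReal.ofReal_le_ofReal hlog)
  refine ⟨hfin, ?_⟩
  have hnn : 0 ≤ 12 + Real.log κ + 5 / 2 * Real.log ((m : ℝ) * n) + Real.log (1 / σ) := by
    have e0 : 0 ≤ Real.log κ := Real.log_nonneg hκ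
    have e1 : 0 ≤ Real.log ((m : ℝ) * n) := Real.log_nonneg hmn
    have e2 : 0 ≤ Real.log (1 / σ) := by
      apply Real.log_nonneg
      rw [le_div_iff₀ hσ]; linarith
    linarith
  unfold expect
  calc _ ≤ ((∫⁻ d, (ENNReal.log (condNum C₁ C₂ d)).toENNReal ∂(noisy a σ ν) : ℝ≥0∞) : EReal) - 0 :=
        EReal.sub_le_sub le_rfl (EReal.coe_ennreal_nonneg _)
    _ = ((∫⁻ d, (ENNReal.log (condNum C₁ C₂ d)).toENNReal ∂(noisy a σ ν) : ℝ≥0∞) : EReal) :=
        sub_zero _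
    _ ≤ ((ENNReal.ofReal (12 + Real.log κ + 5 / 2 * Real.log (m * n) + Real.log (1 / σ)) :
          ℝ≥0∞) : EReal) :=
        EReal.coe_ennreal_le_coe_ennreal_iff.2 hfin
    _ = _ := by
        rw [EReal.coe_ennreal_ofReal, max_eq_left hnn]

end Pool.Agent.H89.SC
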