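import Pool.Agent.H89.SC.Ill2
import Pool.Graph.R_seed8.H836R3.Main

/-!
# The tail of the distance to ill-posedness of a conic program
-/

set_option autoImplicit false

open Set Matrix MeasureTheory ProbabilityTheory
open scoped ENNReal NNReal

namespace Pool.Agent.H89.SC

open Pool.Agent.H836R3

variable {m n : ℕ}

lemma dirMap_matP (hm : 1 ≤ m) : DirMap (matP : Data m n → Matrix (Fin m) (Option (Fin n)) ℝ) := by
  intro u v
  set c : ℝ := (Real.sqrt (Fintype.card (Fin m) * Fintype.card (Option (Fin n))))⁻¹ with hc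
  have hpos : (0 : ℝ) < Fintype.card (Fin m) * Fintype.card (Option (Fin n)) := by
    have : (1 : ℝ) ≤ m := by exact_mod_cast hm
    simp only [Fintype.card_fin, Fintype.card_option]
    positivity
  have hc2 : c ^ 2 * ((m : ℝ) * (n + 1)) = 1 := by
    rw [hc, inv_pow, Real.sq_sqrt hpos.le]
    have : (m : ℝ) * (n + 1) = Fintype.card (Fin m) * Fintype.card (Option (Fin n)) := by
      simp
    rw [this]
    exact inv_mul_cancel₀ hpos.ne'
  have hv : ∀ i, sv v i * sv v i = 1 := fun i => sg_sq _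
  have hu : ∀ i, sv u i * sv u i = 1 := fun i => sg_sq _
  refine ⟨fun k => match k with
    | Sum.inl (i, j) => c * (sv v i * sv u (some j))
    | Sum.inr (Sum.inl i) => -(c * (sv v i * sv u none))
    | Sum.inr (Sum.inr _) => 0, ?_, ?_⟩
  · rw [sum_data]
    have e1 : ∀ (i : Fin m) (j : Fin n), (c * (sv v i * sv u (some j))) ^ 2 = c ^ 2 := by
      intro i j
      linear_combination (c ^ 2 * (sv u (some j) * sv u (some j))) * hv i + c ^ 2 * hu (some j)
    have e2 : ∀ (i : Fin m), (-(c * (sv v i * sv u none))) ^ 2 = c ^ 2 := by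
      intro i
      linear_combination (c ^ 2 * (sv u none * sv u none)) * hv i + c ^ 2 * hu none
    simp only [e1, e2]
    simp only [Finset.sum_const, Finset.card_univ, Fintype.card_fin, nsmul_eq_mul]
    linear_combination hc2
  · intro d s r q
    cases q with
    | none => simp [matP, homog, vecB]; ring
    | some q => simp [matP, homog, matA]

lemma dirMap_matD (hn : 1 ≤ n) : DirMap (matD : Data m n → Matrix (Fin n) (Option (Fin m)) ℝ) := by
  intro u v
  set c : ℝ := (Real.sqrt (Fintype.card (Fin n) * Fintype.card (Option (Fin m))))⁻¹ with hc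
  have hpos : (0 : ℝ) < Fintype.card (Fin n) * Fintype.card (Option (Fin m)) := by
    have : (1 : ℝ) ≤ n := by exact_mod_cast hn
    simp only [Fintype.card_fin, Fintype.card_option]
    positivity
  have hc2 : c ^ 2 * ((n : ℝ) * (m + 1)) = 1 := by
    rw [hc, inv_pow, Real.sq_sqrt hpos.le]
    have : (n : ℝ) * (m + 1) = Fintype.card (Fin n) * Fintype.card (Option (Fin m)) := by
      simp
    rw [this]
    exact inv_mul_cancel₀ hpos.ne'
  have hv : ∀ i, sv v i * sv v i = 1 := fun i => sg_sq _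
  have hu : ∀ i, sv u i * sv u i = 1 := fun i => sg_sq _
  refine ⟨fun k => match k with
    | Sum.inl (i, j) => -(c * (sv v j * sv u (some i)))
    | Sum.inr (Sum.inl _) => 0
    | Sum.inr (Sum.inr j) => c * (sv v j * sv u none), ?_, ?_⟩
  · rw [sum_data]
    have e1 : ∀ (i : Fin m) (j : Fin n), (-(c * (sv v j * sv u (some i)))) ^ 2 = c ^ 2 := by
      intro i j
      linear_combination (c ^ 2 * (sv u (some i) * sv u (some i))) * hv j + c ^ 2 * hu (some i)
    have e2 : ∀ (j : Fin n), (c * (sv v j * sv u none)) ^ 2 = c ^ 2 := by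
      intro j
      linear_combination (c ^ 2 * (sv u none * sv u none)) * hv j + c ^ 2 * hu none
    simp only [e1, e2]
    simp only [Finset.sum_const, Finset.card_univ, Fintype.card_fin, nsmul_eq_mul]
    linear_combination hc2
  · intro d s r q
    cases q with
    | none => simp [matD, homog, vecC]
    | some q => simp [matD, homog, matA]; ring

/-- The tail bound for the distance to ill-posedness. -/
theorem rho_tail (hm : 1 ≤ m) (hn : 1 ≤ n) {C₁ : Set (Fin m → ℝ)} {C₂ : Set (Fin n → ℝ)}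
    (h1 : IsClosedConvexCone C₁) (h2 : IsClosedConvexCone C₂) (a : Data m n) {σ : ℝ} (hσ : 0 < σ)
    {t : ℝ} (ht : 0 ≤ t) :
    gaussPi a σ {d | rho C₁ C₂ d < ENNReal.ofReal t} ≤
      ENNReal.ofReal (1040 * Real.sqrt (m * n) * t / σ) := by
  have : NeZero m := ⟨by omega⟩
  have : NeZero n := ⟨by omega⟩
  have hD1 := isClosedConvexCone_dualCone C₁
  have hDD2 := isClosedConvexCone_dualCone (dualCone C₂)
  set X := {d : Data m n | (∃ z ∈ coneUp C₂, z ⬝ᵥ z = 1 ∧ ∀ y ∈ dualCone C₁, y ⬝ᵥ y = 1 →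
        -t ≤ y ⬝ᵥ (matP d).mulVec z) ∧
      (∃ y ∈ dualCone C₁, y ⬝ᵥ y = 1 ∧ ∀ x ∈ coneUp C₂, x ⬝ᵥ x = 1 →
        y ⬝ᵥ (matP d).mulVec x ≤ t)} with hX
  set Y := {d : Data m n | (∃ z ∈ coneUp (dualCone C₁), z ⬝ᵥ z = 1 ∧
        ∀ y ∈ dualCone (dualCone C₂), y ⬝ᵥ y = 1 → -t ≤ y ⬝ᵥ (matD d).mulVec z) ∧
      (∃ y ∈ dualCone (dualCone C₂), y ⬝ᵥ y = 1 ∧ ∀ x ∈ coneUp (dualCone C₁), x ⬝ᵥ x = 1 →
        y ⬝ᵥ (matD d).mulVec x ≤ t)} with hY
  have hXm := ill_measure a hσ (isClosedConvexCone_coneUp h2) hD1 continuous_matP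
    (dirMap_matP hm) ht
  have hYm := ill_measure a hσ (isClosedConvexCone_coneUp hD1) hDD2 continuous_matD
    (dirMap_matD hn) ht
  rw [← hX] at hXm
  rw [← hY] at hYm
  have hsub : {d | rho C₁ C₂ d < ENNReal.ofReal t} ⊆ X ∪ Y := by
    intro d hd
    have hns : ¬ StableUpTo C₁ C₂ d (Real.toNNReal t) := by
      intro hs
      have : (Real.toNNReal t : ℝ≥0∞) ≤ rho C₁ C₂ d := le_iSup₂_of_le _ hs le_rfl
      exact absurd hd (not_lt.2 this)
    unfold StableUpTo at hns
    push Not at hns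
    obtain ⟨e, he, hne⟩ := hns
    rw [Real.coe_toNNReal t ht] at he
    by_cases hP : PrimalFeasible C₁ C₂ (d + e) ↔ PrimalFeasible C₁ C₂ d
    · right
      have hDne : ¬ (DualFeasible C₁ C₂ (d + e) ↔ DualFeasible C₁ C₂ d) := by
        have := hne hP
        tauto
      exact dual_change ht he hDne
    · left
      exact primal_change h1 h2 ht he hP
  have hm1 : (1 : ℝ) ≤ m := by exact_mod_cast hm
  have hn1 : (1 : ℝ) ≤ n := by exact_mod_cast hn
  have hs2 : Real.sqrt 2 ≤ 1.42 := by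
    rw [Real.sqrt_le_left (by norm_num)]
    norm_num
  have key : ∀ x y : ℝ, 1 ≤ x → 1 ≤ y → Real.sqrt (x * (y + 1)) ≤ 1.42 * Real.sqrt (x * y) := by
    intro x y hx hy
    calc Real.sqrt (x * (y + 1)) ≤ Real.sqrt (2 * (x * y)) :=
          Real.sqrt_le_sqrt (by nlinarith)
      _ = Real.sqrt 2 * Real.sqrt (x * y) := Real.sqrt_mul (by norm_num) _
      _ ≤ _ := mul_le_mul_of_nonneg_right hs2 (Real.sqrt_nonneg _)
  calc gaussPi a σ {d | rho C₁ C₂ d < ENNReal.ofReal t}
      ≤ gaussPi a σ (X ∪ Y) := measure_mono hsub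
    _ ≤ gaussPi a σ X + gaussPi a σ Y := measure_union_le _ _
    _ ≤ _ := add_le_add hXm hYm
    _ = ENNReal.ofReal (365 * Real.sqrt ((m : ℝ) * (n + 1)) * t / σ +
          365 * Real.sqrt ((n : ℝ) * (m + 1)) * t / σ) := by
        rw [ENNReal.ofReal_add (by positivity) (by positivity)]
        simp
    _ ≤ _ := by
        apply ENNReal.ofReal_le_ofReal
        have e1 := key m n hm1 hn1
        have e2 := key n m hn1 hm1
        rw [mul_comm (n : ℝ) (m : ℝ)] at e2
        rw [← add_div]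
        apply div_le_div_of_nonneg_right _ hσ.le
        have e3 := Real.sqrt_nonneg ((m : ℝ) * n)
        nlinarith [mul_le_mul_of_nonneg_right e1 ht, mul_le_mul_of_nonneg_right e2 ht,
          mul_nonneg e3 ht]

end Pool.Agent.H89.SC
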