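import Mathlib

/-!
# Random signs: a Paley-Zygmund inequality for Rademacher sums
-/

set_option autoImplicit false

open Finset Matrix

namespace Pool.Agent.H89.SC

variable {Q : Type} [Fintype Q] [DecidableEq Q]

/-- the sign of a boolean -/
def sg (b : Bool) : ℝ := if b then 1 else -1

/-- the sign vector of a boolean vector -/
def sv (u : Q → Bool) : Q → ℝ := fun q => sg (u q)

lemma sg_sq (b : Bool) : sg b * sg b = 1 := by cases b <;> simp [sg]
lemma sg_not (b : Bool) : sg (!b) = -sg b := by cases b <;> simp [sg]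

/-- flip one coordinate -/
def flip (q : Q) : (Q → Bool) ≃ (Q → Bool) where
  toFun u := Function.update u q (!(u q))
  invFun u := Function.update u q (!(u q))
  left_inv u := by
    ext j
    by_cases h : j = q
    · subst h; simp
    · simp [h]
  right_inv u := by
    ext j
    by_cases h : j = q
    · subst h; simp
    · simp [h]

lemma sum_odd (q : Q) (F : (Q → Bool) → ℝ) (hF : ∀ u, F (flip q u) = F u) :
    ∑ u, F u * sg (u q) = 0 := by
  have h := Equiv.sum_comp (flip q) (fun u => F u * sg (u q))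
  have h2 : ∀ u : Q → Bool, F (flip q u) * sg (flip q u q) = -(F u * sg (u q)) := by
    intro u
    rw [hF]
    have : flip q u q = !(u q) := by simp [flip]
    rw [this, sg_not]
    ring
  simp_rw [h2] at h
  rw [Finset.sum_neg_distrib] at h
  linarith

lemma flip_sum (z : Q → ℝ) (s : Finset Q) {q : Q} (hq : q ∉ s) (u : Q → Bool) :
    ∑ j ∈ s, sg (flip q u j) * z j = ∑ j ∈ s, sg (u j) * z j := by
  refine Finset.sum_congr rfl fun j hj => ?_
  have : j ≠ q := fun h => hq (h ▸ hj)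
  simp [flip, this]

lemma moments (z : Q → ℝ) (s : Finset Q) :
    ∑ u : Q → Bool, (∑ j ∈ s, sg (u j) * z j) ^ 2 =
        (2 : ℝ) ^ Fintype.card Q * ∑ j ∈ s, z j ^ 2 ∧
      ∑ u : Q → Bool, (∑ j ∈ s, sg (u j) * z j) ^ 4 ≤
        3 * (2 : ℝ) ^ Fintype.card Q * (∑ j ∈ s, z j ^ 2) ^ 2 := by
  induction s using Finset.induction_on with
  | empty => simp
  | insert q s hq ih =>
    obtain ⟨ih2, ih4⟩ := ih
    set S : (Q → Bool) → ℝ := fun u => ∑ j ∈ s, sg (u j) * z j with hS
    have hflip : ∀ u, S (flip q u) = S u := fun u => flip_sum z s hq u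
    have hcard : ∑ _u : Q → Bool, (1 : ℝ) = (2 : ℝ) ^ Fintype.card Q := by
      simp
    have o1 : ∑ u, S u * sg (u q) = 0 := sum_odd q S hflip
    have o3 : ∑ u, S u ^ 3 * sg (u q) = 0 :=
      sum_odd q (fun u => S u ^ 3) (fun u => by rw [hflip])
    have hins : ∀ u : Q → Bool, ∑ j ∈ insert q s, sg (u j) * z j = sg (u q) * z q + S u :=
      fun u => Finset.sum_insert hq
    rw [Finset.sum_insert hq]
    simp_rw [hins]
    have e2 : ∀ u : Q → Bool, (sg (u q) * z q + S u) ^ 2 =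
        S u ^ 2 + 2 * z q * (S u * sg (u q)) + z q ^ 2 * 1 := by
      intro u
      have := sg_sq (u q)
      linear_combination (z q ^ 2) * this
    have e4 : ∀ u : Q → Bool, (sg (u q) * z q + S u) ^ 4 =
        S u ^ 4 + 4 * z q * (S u ^ 3 * sg (u q)) + 6 * z q ^ 2 * S u ^ 2 +
          4 * z q ^ 3 * (S u * sg (u q)) + z q ^ 4 * 1 := by
      intro u
      have := sg_sq (u q)
      linear_combination (6 * z q ^ 2 * S u ^ 2 + 4 * z q ^ 3 * S u * sg (u q) +
        z q ^ 4 * (sg (u q) * sg (u q) + 1)) * this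
    constructor
    · simp_rw [e2]
      rw [Finset.sum_add_distrib, Finset.sum_add_distrib, ← Finset.mul_sum, ← Finset.mul_sum,
        o1, hcard, ih2]
      ring
    · simp_rw [e4]
      rw [Finset.sum_add_distrib, Finset.sum_add_distrib, Finset.sum_add_distrib,
        Finset.sum_add_distrib, ← Finset.mul_sum, ← Finset.mul_sum, ← Finset.mul_sum,
        ← Finset.mul_sum, o1, o3, hcard, ih2]
      have hT : 0 ≤ ∑ j ∈ s, z j ^ 2 := Finset.sum_nonneg fun _ _ => sq_nonneg _
      have hM : (0 : ℝ) < 2 ^ Fintype.card Q := by positivity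
      have h4 : 0 ≤ z q ^ 4 := by positivity
      nlinarith [mul_nonneg hM.le h4]

/-- at least `3/16` of the sign vectors have `|u · z| ≥ 1/2` -/
lemma pz {z : Q → ℝ} (hz : z ⬝ᵥ z = 1) :
    (3 / 16 : ℝ) * (2 : ℝ) ^ Fintype.card Q ≤
      ((Finset.univ.filter fun u : Q → Bool => 1 / 2 ≤ |sv u ⬝ᵥ z|).card : ℝ) := by
  classical
  set X : (Q → Bool) → ℝ := fun u => sv u ⬝ᵥ z with hX
  have hXe : ∀ u, X u = ∑ j ∈ Finset.univ, sg (u j) * z j := fun u => rfl
  have hz2 : ∑ j ∈ Finset.univ, z j ^ 2 = 1 := by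
    rw [← hz]; exact Finset.sum_congr rfl fun j _ => by ring
  obtain ⟨m2, m4⟩ := moments z Finset.univ
  rw [hz2] at m2 m4
  simp_rw [← hXe] at m2 m4
  set M : ℝ := (2 : ℝ) ^ Fintype.card Q with hM
  have hM0 : 0 < M := by positivity
  set U := Finset.univ.filter fun u : Q → Bool => 1 / 2 ≤ |X u| with hU
  have hcard : ((Finset.univ : Finset (Q → Bool)).card : ℝ) = M := by
    rw [hM]; simp
  have hcompl : ∑ u ∈ Finset.univ.filter (fun u : Q → Bool => ¬ 1 / 2 ≤ |X u|), X u ^ 2 ≤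
      M * (1 / 4) := by
    calc _ ≤ ∑ u ∈ Finset.univ.filter (fun u : Q → Bool => ¬ 1 / 2 ≤ |X u|), (1 / 4 : ℝ) := by
          apply Finset.sum_le_sum
          intro u hu
          have h1 : |X u| < 1 / 2 := not_le.1 (Finset.mem_filter.1 hu).2
          rw [← sq_abs]
          nlinarith [abs_nonneg (X u)]
      _ ≤ ∑ _u : Q → Bool, (1 / 4 : ℝ) :=
          Finset.sum_le_sum_of_subset_of_nonneg (Finset.filter_subset _ _)
            (fun _ _ _ => by norm_num)
      _ = M * (1 / 4) := by rw [Finset.sum_const, nsmul_eq_mul, hcard]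
  have hsplit : ∑ u ∈ U, X u ^ 2 + ∑ u ∈ Finset.univ.filter (fun u : Q → Bool => ¬ 1 / 2 ≤ |X u|),
      X u ^ 2 = ∑ u, X u ^ 2 := Finset.sum_filter_add_sum_filter_not _ _ _
  have hge : 3 / 4 * M ≤ ∑ u ∈ U, X u ^ 2 := by
    have := hsplit
    rw [m2] at this
    linarith
  have hcs : (∑ u ∈ U, X u ^ 2) ^ 2 ≤ (U.card : ℝ) * ∑ u ∈ U, (X u ^ 2) ^ 2 :=
    sq_sum_le_card_mul_sum_sq
  have h4 : ∑ u ∈ U, (X u ^ 2) ^ 2 ≤ 3 * M := by
    calc ∑ u ∈ U, (X u ^ 2) ^ 2 ≤ ∑ u : Q → Bool, (X u ^ 2) ^ 2 :=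
          Finset.sum_le_sum_of_subset_of_nonneg (Finset.filter_subset _ _)
            (fun _ _ _ => by positivity)
      _ = ∑ u : Q → Bool, X u ^ 4 := Finset.sum_congr rfl fun u _ => by ring
      _ ≤ 3 * M := by simpa using m4
  have hUc : (0 : ℝ) ≤ U.card := Nat.cast_nonneg _
  have h5 : (3 / 4 * M) ^ 2 ≤ (U.card : ℝ) * (3 * M) :=
    (pow_le_pow_left₀ (by positivity) hge 2).trans
      (hcs.trans (mul_le_mul_of_nonneg_left h4 hUc))
  have h6 : M * (3 / 16 * M) ≤ M * U.card := by nlinarith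
  exact le_of_mul_le_mul_left h6 hM0

/-- at least `3/32` of the sign vectors have `u · z ≥ 1/2` -/
lemma pz' {z : Q → ℝ} (hz : z ⬝ᵥ z = 1) :
    (3 / 32 : ℝ) * (2 : ℝ) ^ Fintype.card Q ≤
      ((Finset.univ.filter fun u : Q → Bool => 1 / 2 ≤ sv u ⬝ᵥ z).card : ℝ) := by
  classical
  have h := pz hz
  set A := Finset.univ.filter fun u : Q → Bool => 1 / 2 ≤ sv u ⬝ᵥ z with hA
  let neg : (Q → Bool) ↪ (Q → Bool) := ⟨fun u q => !(u q), fun u u' h => by
    ext q
    have := congrFun h q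
    simpa using this⟩
  have hsub : (Finset.univ.filter fun u : Q → Bool => 1 / 2 ≤ |sv u ⬝ᵥ z|) ⊆ A ∪ A.map neg := by
    intro u hu
    have hu' : 1 / 2 ≤ |sv u ⬝ᵥ z| := (Finset.mem_filter.1 hu).2
    rw [Finset.mem_union]
    rcases abs_choice (sv u ⬝ᵥ z) with h1 | h1
    · left
      rw [h1] at hu'
      exact Finset.mem_filter.2 ⟨Finset.mem_univ _, hu'⟩
    · right
      rw [h1] at hu'
      refine Finset.mem_map.2 ⟨fun q => !(u q), Finset.mem_filter.2 ⟨Finset.mem_univ _, ?_⟩, ?_⟩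
      · have : sv (fun q => !(u q)) = -sv u := by
          ext q
          exact sg_not (u q)
        rw [this, neg_dotProduct]
        exact hu'
      · ext q
        exact Bool.not_not (u q)
  have hc : ((Finset.univ.filter fun u : Q → Bool => 1 / 2 ≤ |sv u ⬝ᵥ z|).card : ℝ) ≤
      A.card + A.card := by
    have := (Finset.card_le_card hsub).trans (Finset.card_union_le _ _)
    rw [Finset.card_map] at this
    exact_mod_cast this
  linarith

lemma sv_sq (u : Q → Bool) : ∑ q, sv u q ^ 2 = Fintype.card Q := by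
  have : ∀ q, sv u q ^ 2 = 1 := fun q => by
    have := sg_sq (u q)
    unfold sv
    rw [sq]
    exact this
  simp [this]

end Pool.Agent.H89.SC
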