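import Pool.Graph.R_seed8.H836R3.Ill
import Pool.Agent.H89.SC.Gs
import Pool.Agent.H89.SC.Rad

/-!
# The covering of the ill-posed matrices by exceptional sets in the directions of sign matrices
-/

set_option autoImplicit false

open Set Matrix MeasureTheory
open scoped ENNReal

namespace Pool.Agent.H89.SC

open Pool.Agent.H836R3

variable {Q R : Type} [Fintype Q] [Fintype R]

/-- The first half of the exceptional set. -/
def SA (C : Set (Q → ℝ)) (D : Set (R → ℝ)) (u : Q → ℝ) (v : R → ℝ) : Set (Matrix R Q ℝ) :=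
  {B | ∃ y, y ⬝ᵥ y = 1 ∧ (y ∈ D ∧ 1 / 2 ≤ v ⬝ᵥ y ∧
    ∀ x ∈ C, 0 < u ⬝ᵥ x → y ⬝ᵥ B.mulVec x ≤ 0)}

/-- The second half of the exceptional set. -/
def SB (C : Set (Q → ℝ)) (D : Set (R → ℝ)) (u : Q → ℝ) (t : ℝ) : Set (Matrix R Q ℝ) :=
  {B | ∃ z, z ⬝ᵥ z = 1 ∧ (z ∈ C ∧ 1 / 2 ≤ u ⬝ᵥ z ∧
    ∀ y ∈ D, y ⬝ᵥ y = 1 → -t ≤ y ⬝ᵥ B.mulVec z)}

/-- The slices of the exceptional set are short. -/
lemma slice {C : Set (Q → ℝ)} {D : Set (R → ℝ)} {u : Q → ℝ} {v : R → ℝ} {t : ℝ}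
    {B B' : Matrix R Q ℝ} {τ : ℝ}
    (hBB : ∀ (x : Q → ℝ) (y : R → ℝ),
      y ⬝ᵥ B'.mulVec x = y ⬝ᵥ B.mulVec x + τ * ((v ⬝ᵥ y) * (u ⬝ᵥ x)))
    (hB : B ∈ SA C D u v ∩ SB C D u t) (hB' : B' ∈ SA C D u v ∩ SB C D u t) :
    |τ| ≤ 4 * t := by
  obtain ⟨⟨y, hy1, hyD, hyr, hyC⟩, ⟨z, hz1, hzC, hzq, hzD⟩⟩ := hB
  obtain ⟨⟨y', hy1', hyD', hyr', hyC'⟩, ⟨z', hz1', hzC', hzq', hzD'⟩⟩ := hB'
  have aux : ∀ (s a b : ℝ), 1 / 2 ≤ a → 1 / 2 ≤ b → 0 ≤ s → s * (a * b) ≤ t → s ≤ 4 * t := by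
    intro s a b ha hb hs h
    have h1 : (1 / 4 : ℝ) ≤ a * b := by nlinarith
    have h2 : s * (1 / 4) ≤ t := (mul_le_mul_of_nonneg_left h1 hs).trans h
    linarith
  have e1 : τ * ((v ⬝ᵥ y') * (u ⬝ᵥ z)) ≤ t := by
    have h1 := hyC' z hzC (by linarith)
    rw [hBB] at h1
    have h2 := hzD y' hyD' hy1'
    linarith
  have e2 : -τ * ((v ⬝ᵥ y) * (u ⬝ᵥ z')) ≤ t := by
    have h1 := hyC z' hzC' (by linarith)
    have h2 := hzD' y hyD hy1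
    rw [hBB] at h2
    linarith
  rcases le_total 0 τ with h | h
  · rw [abs_of_nonneg h]
    exact aux _ _ _ hyr' hzq h e1
  · rw [abs_of_nonpos h]
    exact aux _ _ _ hyr hzq' (by linarith) e2

/-- For every half-space which contains the given point of the cone there is a separating vector. -/
lemma exists_y {C : Set (Q → ℝ)} {D : Set (R → ℝ)}
    (hC : IsClosedConvexCone C) (hD : IsClosedConvexCone D) {B : Matrix R Q ℝ}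
    (hFG : (∀ z ∈ C, z ≠ 0 → ∃ y ∈ D, y ⬝ᵥ B.mulVec z < 0) ∨
      (∃ y ∈ D, y ≠ 0 ∧ ∀ x ∈ C, y ⬝ᵥ B.mulVec x ≤ 0)) {z : Q → ℝ} (hzC : z ∈ C)
    {u : Q → ℝ} (hzpos : 0 < u ⬝ᵥ z) :
    ∃ y ∈ D, y ⬝ᵥ y = 1 ∧ ∀ x ∈ C, 0 < u ⬝ᵥ x → y ⬝ᵥ B.mulVec x ≤ 0 := by
  rcases hFG with hF | ⟨y, hyD, hy0, hy⟩
  · let W : Set (R → ℝ) := {w | ∃ e ∈ dualCone D, ∃ x ∈ C, 0 < u ⬝ᵥ x ∧ w = e - B.mulVec x}
    have hDc := isClosedConvexCone_dualCone D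
    have hWc : Convex ℝ W := by
      rintro w1 ⟨e1, he1, x1, hx1, hp1, rfl⟩ w2 ⟨e2, he2, x2, hx2, hp2, rfl⟩ a b ha hb hab
      refine ⟨a • e1 + b • e2, hDc.convex he1 he2 ha hb hab, a • x1 + b • x2,
        hC.convex hx1 hx2 ha hb hab, ?_, ?_⟩
      · rw [dotProduct_add, dotProduct_smul, dotProduct_smul, smul_eq_mul, smul_eq_mul]
        rcases ha.lt_or_eq with h | h
        · have := mul_pos h hp1
          have := mul_nonneg hb hp2.le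
          linarith
        · have hb1 : b = 1 := by linarith
          rw [← h, hb1]; linarith
      · rw [mulVec_add, mulVec_smul, mulVec_smul, smul_sub, smul_sub]
        abel
    have hWne : W.Nonempty := ⟨_, 0, hDc.zero_mem, z, hzC, hzpos, rfl⟩
    have hW0 : (0 : R → ℝ) ∉ W := by
      rintro ⟨e, he, x, hx, hp, h⟩
      have hxne : x ≠ 0 := by
        rintro rfl
        simp at hp
      obtain ⟨y, hyD, hy⟩ := hF x hx hxne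
      have he' : e = B.mulVec x := (sub_eq_zero.1 h.symm)
      have := he y hyD
      rw [he', dotProduct_comm] at this
      linarith
    obtain ⟨y, hy1, hyW⟩ := sep_weak hWc hWne hW0
    have hyD : y ∈ D := by
      rw [← dualCone_dualCone hD]
      intro e he
      by_contra hneg
      push Not at hneg
      set s : ℝ := |y ⬝ᵥ B.mulVec z| + 1
      have h1 := hyW ((s / (-(y ⬝ᵥ e))) • e - B.mulVec z)
        ⟨_, hDc.smul_mem _ (div_nonneg (by positivity) (by linarith)) e he, z, hzC, hzpos, rfl⟩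
      rw [dotProduct_sub, dotProduct_smul, smul_eq_mul] at h1
      have h2 : s / (-(y ⬝ᵥ e)) * (y ⬝ᵥ e) = -s := by
        have : y ⬝ᵥ e ≠ 0 := hneg.ne
        field_simp
      rw [h2] at h1
      have h3 := neg_abs_le (y ⬝ᵥ B.mulVec z)
      simp only [s] at h1
      linarith
    refine ⟨y, hyD, hy1, fun x hx hp => ?_⟩
    have h1 := hyW (0 - B.mulVec x) ⟨0, hDc.zero_mem, x, hx, hp, rfl⟩
    rw [zero_sub, dotProduct_neg] at h1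
    linarith
  · obtain ⟨s, hs, hs1⟩ := exists_unit hy0
    refine ⟨s • y, hD.smul_mem s hs.le y hyD, hs1, fun x hx _ => ?_⟩
    rw [smul_dotProduct, smul_eq_mul]
    exact mul_nonpos_of_nonneg_of_nonpos hs.le (hy x hx)

/-- the exceptional set -/
def Exc (C : Set (Q → ℝ)) (D : Set (R → ℝ)) (t : ℝ) (p : (Q → Bool) × (R → Bool)) :
    Set (Matrix R Q ℝ) :=
  SA C D (sv p.1) (sv p.2) ∩ SB C D (sv p.1) t

/-- A nearly ill-posed matrix lies in many of the exceptional sets. -/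
lemma many {C : Set (Q → ℝ)} {D : Set (R → ℝ)} [DecidableEq Q] [DecidableEq R]
    (hC : IsClosedConvexCone C) (hD : IsClosedConvexCone D) {B : Matrix R Q ℝ} {t : ℝ}
    (hII : ∃ z ∈ C, z ⬝ᵥ z = 1 ∧ ∀ y ∈ D, y ⬝ᵥ y = 1 → -t ≤ y ⬝ᵥ B.mulVec z)
    (hFG : (∀ z ∈ C, z ≠ 0 → ∃ y ∈ D, y ⬝ᵥ B.mulVec z < 0) ∨
      (∃ y ∈ D, y ≠ 0 ∧ ∀ x ∈ C, y ⬝ᵥ B.mulVec x ≤ 0)) :
    (9 / 1024 : ℝ) * ((2 : ℝ) ^ Fintype.card Q * (2 : ℝ) ^ Fintype.card R) ≤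
      ∑ p : (Q → Bool) × (R → Bool), (Exc C D t p).indicator (fun _ => (1 : ℝ)) B := by
  classical
  obtain ⟨z, hzC, hz1, hzD⟩ := hII
  rw [Fintype.sum_prod_type]
  set U := Finset.univ.filter fun u : Q → Bool => 1 / 2 ≤ sv u ⬝ᵥ z with hU
  have hUc := pz' hz1
  rw [← hU] at hUc
  have hinner : ∀ u ∈ U, (3 / 32 : ℝ) * (2 : ℝ) ^ Fintype.card R ≤
      ∑ v : R → Bool, (Exc C D t (u, v)).indicator (fun _ => (1 : ℝ)) B := by
    intro u hu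
    have hzu : 1 / 2 ≤ sv u ⬝ᵥ z := (Finset.mem_filter.1 hu).2
    obtain ⟨y, hyD, hy1, hyC⟩ := exists_y hC hD hFG hzC (u := sv u) (by linarith)
    refine (pz' hy1).trans ?_
    rw [Finset.card_filter]
    push_cast
    apply Finset.sum_le_sum
    intro v _
    by_cases hv : 1 / 2 ≤ sv v ⬝ᵥ y
    · rw [if_pos hv, Set.indicator_of_mem]
      exact ⟨⟨y, hy1, hyD, hv, hyC⟩, ⟨z, hz1, hzC, hzu, hzD⟩⟩
    · rw [if_neg hv]
      exact Set.indicator_nonneg (fun _ _ => zero_le_one) _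
  have hnn : ∀ u : Q → Bool, 0 ≤
      ∑ v : R → Bool, (Exc C D t (u, v)).indicator (fun _ => (1 : ℝ)) B := fun u =>
    Finset.sum_nonneg fun v _ => Set.indicator_nonneg (fun _ _ => zero_le_one) _
  calc (9 / 1024 : ℝ) * ((2 : ℝ) ^ Fintype.card Q * (2 : ℝ) ^ Fintype.card R)
      = ((3 / 32 : ℝ) * (2 : ℝ) ^ Fintype.card Q) * ((3 / 32 : ℝ) * (2 : ℝ) ^ Fintype.card R) := by
        ring
    _ ≤ (U.card : ℝ) * ((3 / 32 : ℝ) * (2 : ℝ) ^ Fintype.card R) :=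
        mul_le_mul_of_nonneg_right hUc (by positivity)
    _ = ∑ _u ∈ U, ((3 / 32 : ℝ) * (2 : ℝ) ^ Fintype.card R) := by
        rw [Finset.sum_const, nsmul_eq_mul]
    _ ≤ ∑ u ∈ U, ∑ v : R → Bool, (Exc C D t (u, v)).indicator (fun _ => (1 : ℝ)) B :=
        Finset.sum_le_sum hinner
    _ ≤ _ := Finset.sum_le_sum_of_subset_of_nonneg (Finset.subset_univ _) fun u _ _ => hnn u

/-- A nearly ill-posed matrix lies in many exceptional sets, or its negative transpose does. -/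
lemma many_or {C : Set (Q → ℝ)} {D : Set (R → ℝ)} [DecidableEq Q] [DecidableEq R]
    (hC : IsClosedConvexCone C) (hD : IsClosedConvexCone D) {B : Matrix R Q ℝ} {t : ℝ}
    (hII : ∃ z ∈ C, z ⬝ᵥ z = 1 ∧ ∀ y ∈ D, y ⬝ᵥ y = 1 → -t ≤ y ⬝ᵥ B.mulVec z)
    (hI : ∃ y ∈ D, y ⬝ᵥ y = 1 ∧ ∀ x ∈ C, x ⬝ᵥ x = 1 → y ⬝ᵥ B.mulVec x ≤ t) :
    (9 / 1024 : ℝ) * ((2 : ℝ) ^ Fintype.card Q * (2 : ℝ) ^ Fintype.card R) ≤
      ∑ p : (Q → Bool) × (R → Bool), (Exc C D t p).indicator (fun _ => (1 : ℝ)) B ∨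
    (9 / 1024 : ℝ) * ((2 : ℝ) ^ Fintype.card R * (2 : ℝ) ^ Fintype.card Q) ≤
      ∑ p : (R → Bool) × (Q → Bool), (Exc D C t p).indicator (fun _ => (1 : ℝ)) (-Bᵀ) := by
  by_cases hG : ∃ y ∈ D, y ≠ 0 ∧ ∀ x ∈ C, y ⬝ᵥ B.mulVec x ≤ 0
  · exact Or.inl (many hC hD hII (Or.inr hG))
  · right
    have hI' : ∃ z ∈ D, z ⬝ᵥ z = 1 ∧ ∀ y ∈ C, y ⬝ᵥ y = 1 → -t ≤ y ⬝ᵥ (-Bᵀ).mulVec z := by
      obtain ⟨y, hyD, hy1, hy⟩ := hI
      refine ⟨y, hyD, hy1, fun x hx hx1 => ?_⟩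
      rw [flip_dot]
      have := hy x hx hx1
      linarith
    have hF' : ∀ z ∈ D, z ≠ 0 → ∃ y ∈ C, y ⬝ᵥ (-Bᵀ).mulVec z < 0 := by
      intro y hyD hy0
      push Not at hG
      obtain ⟨x, hxC, hx⟩ := hG y hyD hy0
      exact ⟨x, hxC, by rw [flip_dot]; linarith⟩
    exact many hD hC hI' (Or.inl hF')

lemma isClosed_SA {C : Set (Q → ℝ)} {D : Set (R → ℝ)} (hD : IsClosedConvexCone D)
    (u : Q → ℝ) (v : R → ℝ) : IsClosed (SA C D u v) := by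
  have hT : IsClosed {p : Matrix R Q ℝ × (R → ℝ) | p.2 ∈ D ∧
      1 / 2 ≤ v ⬝ᵥ p.2 ∧
      ∀ x ∈ C, 0 < u ⬝ᵥ x → p.2 ⬝ᵥ p.1.mulVec x ≤ 0} := by
    refine (hD.closed.preimage continuous_snd).and ?_
    refine (isClosed_le (by fun_prop) (by fun_prop)).and ?_
    have : {p : Matrix R Q ℝ × (R → ℝ) | ∀ x ∈ C, 0 < u ⬝ᵥ x → p.2 ⬝ᵥ p.1.mulVec x ≤ 0}
        = ⋂ x ∈ {x | x ∈ C ∧ 0 < u ⬝ᵥ x}, {p : Matrix R Q ℝ × (R → ℝ) | p.2 ⬝ᵥ p.1.mulVec x ≤ 0} := by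
      ext p; simp
    rw [this]
    refine isClosed_biInter fun x _ => ?_
    exact isClosed_le (by fun_prop) (by fun_prop)
  exact isClosed_proj isCompact_unit hT

lemma isClosed_SB {C : Set (Q → ℝ)} {D : Set (R → ℝ)} (hC : IsClosedConvexCone C)
    (u : Q → ℝ) (t : ℝ) : IsClosed (SB C D u t) := by
  have hT : IsClosed {p : Matrix R Q ℝ × (Q → ℝ) | p.2 ∈ C ∧
      1 / 2 ≤ u ⬝ᵥ p.2 ∧
      ∀ y ∈ D, y ⬝ᵥ y = 1 → -t ≤ y ⬝ᵥ p.1.mulVec p.2} := by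
    refine (hC.closed.preimage continuous_snd).and ?_
    refine (isClosed_le (by fun_prop) (by fun_prop)).and ?_
    have : {p : Matrix R Q ℝ × (Q → ℝ) | ∀ y ∈ D, y ⬝ᵥ y = 1 → -t ≤ y ⬝ᵥ p.1.mulVec p.2}
        = ⋂ y ∈ {y | y ∈ D ∧ y ⬝ᵥ y = 1}, {p : Matrix R Q ℝ × (Q → ℝ) |
          -t ≤ y ⬝ᵥ p.1.mulVec p.2} := by
      ext p; simp
    rw [this]
    refine isClosed_biInter fun x _ => ?_
    exact isClosed_le (by fun_prop) (by fun_prop)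
  exact isClosed_proj isCompact_unit hT

end Pool.Agent.H89.SC
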