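import Pool.Agent.H89.SC.Prog2
import Pool.Graph.R_seed8.Y325.SC.Fin

/-!
# The tail of the condition number
-/

set_option autoImplicit false

open MeasureTheory ProbabilityTheory Set
open scoped ENNReal NNReal

namespace Pool.Agent.H89.SC

open Pool.Agent.H836R3 Pool.Agent.Y325.SC

/-- The tail of the condition number. -/
theorem tail {m n : ℕ} (hm : 1 ≤ m) (hn : 1 ≤ n) {C₁ : Set (Fin m → ℝ)} {C₂ : Set (Fin n → ℝ)}
    (h1 : IsClosedConvexCone C₁) (h2 : IsClosedConvexCone C₂) (a : Data m n) {σ : ℝ} (hσ : 0 < σ)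
    {t : ℝ} (ht : 0 < t) :
    gaussPi a σ {d | ENNReal.ofReal t ≤ condNum C₁ C₂ d} ≤
      ENNReal.ofReal (37440 * Real.sqrt (m * n) * (frob a / σ + Real.sqrt (m * n)) / t) := by
  have hsh : StmShift := Pool.Agent.Y980.SC.shift
  have hm1 : (1 : ℝ) ≤ m := by exact_mod_cast hm
  have hn1 : (1 : ℝ) ≤ n := by exact_mod_cast hn
  have hmn : (1 : ℝ) ≤ (m : ℝ) * n := by nlinarith
  set N : ℕ := Fintype.card ((Fin m × Fin n) ⊕ (Fin m ⊕ Fin n)) with hNdef
  have hNr : (N : ℝ) = m * n + (m + n) := by rw [hNdef]; simp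
  have hN1 : 1 ≤ N := by
    have : (1 : ℝ) ≤ N := by rw [hNr]; nlinarith
    exact_mod_cast this
  have hN0 : (0 : ℝ) < N := by exact_mod_cast hN1
  set b : ℝ := frob a with hb
  have hb0 : 0 ≤ b := frob_nonneg a
  set w : ℝ := 2 * σ * Real.sqrt N with hw
  have hw0 : 0 < w := by
    have := Real.sqrt_pos.2 hN0
    positivity
  have hwsq : w ^ 2 = 4 * σ ^ 2 * N := by
    rw [hw, mul_pow, mul_pow, Real.sq_sqrt hN0.le]; ring
  set M : ℝ := 1040 * Real.sqrt (m * n) with hM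
  have hsmn : 0 < Real.sqrt ((m : ℝ) * n) := Real.sqrt_pos.2 (by linarith)
  have hM0 : 0 < M := by positivity
  have hrm : Measurable (rho C₁ C₂ : Data m n → ℝ≥0∞) := measurable_rho h1 h2
  let E : ℕ → Set (Data m n) := fun k =>
    {d | (w * k) ^ 2 ≤ ∑ i, (d i - a i) ^ 2} ∩ {d | rho C₁ C₂ d < ENNReal.ofReal ((b + w * (k + 1)) / t)}
  have hcov : {d : Data m n | ENNReal.ofReal t ≤ condNum C₁ C₂ d} ⊆ ⋃ k, E k := by
    intro d hd
    have hd' : ENNReal.ofReal t ≤ condNum C₁ C₂ d := hd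
    set z : ℝ := frob (d - a) with hz
    have hz0 : 0 ≤ z := frob_nonneg _
    refine mem_iUnion.2 ⟨⌊z / w⌋₊, ?_, ?_⟩
    · have hle : w * (⌊z / w⌋₊ : ℝ) ≤ z := by
        have := Nat.floor_le (div_nonneg hz0 hw0.le)
        rw [le_div_iff₀ hw0] at this
        linarith
      have hsq : z ^ 2 = ∑ i, (d i - a i) ^ 2 := by
        rw [hz, frob_sq]; rfl
      change (w * (⌊z / w⌋₊ : ℝ)) ^ 2 ≤ ∑ i, (d i - a i) ^ 2
      rw [← hsq]
      exact pow_le_pow_left₀ (by positivity) hle 2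
    · have hlt : z < w * ((⌊z / w⌋₊ : ℝ) + 1) := by
        have := Nat.lt_floor_add_one (z / w)
        rw [div_lt_iff₀ hw0] at this
        linarith
      have hfd : frob d ≤ b + z := by
        have := frob_add_le a (d - a)
        rwa [add_sub_cancel] at this
      have hpos : 0 < (b + w * ((⌊z / w⌋₊ : ℝ) + 1)) / t := by positivity
      change rho C₁ C₂ d < ENNReal.ofReal ((b + w * ((⌊z / w⌋₊ : ℝ) + 1)) / t)
      unfold condNum at hd'
      split_ifs at hd' with h0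
      · rw [h0]
        exact ENNReal.ofReal_pos.2 hpos
      · have hmul : ENNReal.ofReal t * rho C₁ C₂ d ≤ ENNReal.ofReal (frob d) :=
          ENNReal.mul_le_of_le_div hd'
        have hle : rho C₁ C₂ d ≤ ENNReal.ofReal (frob d) / ENNReal.ofReal t := by
          rw [ENNReal.le_div_iff_mul_le (Or.inl (ENNReal.ofReal_pos.2 ht).ne')
            (Or.inl ENNReal.ofReal_ne_top), mul_comm]
          exact hmul
        rw [← ENNReal.ofReal_div_of_pos ht] at hle
        refine lt_of_le_of_lt hle ?_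
        apply (ENNReal.ofReal_lt_ofReal_iff hpos).2
        exact (div_lt_div_iff_of_pos_right ht).2 (by linarith)
  set A : ℝ := M * ((b + w) / t) / σ with hA
  have hA0 : 0 ≤ A := by positivity
  have hE0 : gaussPi a σ (E 0) ≤ ENNReal.ofReal A := by
    refine (measure_mono inter_subset_right).trans ?_
    have := rho_tail hm hn h1 h2 a hσ (t := (b + w * ((0 : ℕ) + 1)) / t) (by positivity)
    refine this.trans (le_of_eq ?_)
    congr 1
    rw [hA, hM]
    simp
  have hEk : ∀ j : ℕ, gaussPi a σ (E (j + 1)) ≤ ENNReal.ofReal (2 * A * (3 / 4) ^ j) := by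
    intro j
    have hs2 : (0 : ℝ) < Real.sqrt 2 := by positivity
    have hEm : MeasurableSet (E (j + 1)) := by
      apply MeasurableSet.inter
      · apply measurableSet_le measurable_const
        fun_prop
      · exact measurableSet_lt hrm measurable_const
    have hj : (0 : ℝ) ≤ j := Nat.cast_nonneg j
    have hR0 : 0 ≤ w * ((j + 1 : ℕ) : ℝ) := by positivity
    refine (hsh a hσ hR0 hEm (fun d hd => hd.1)).trans ?_
    have ht2 : gaussPi a (Real.sqrt 2 * σ) (E (j + 1)) ≤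
        ENNReal.ofReal (M * ((b + w * (((j + 1 : ℕ) : ℝ) + 1)) / t) / (Real.sqrt 2 * σ)) := by
      refine (measure_mono inter_subset_right).trans ?_
      exact rho_tail hm hn h1 h2 a (by positivity) (by positivity)
    refine (mul_le_mul_right ht2 _).trans ?_
    rw [← ENNReal.ofReal_mul (by positivity)]
    apply ENNReal.ofReal_le_ofReal
    have e1 : Real.exp (-(w * ((j + 1 : ℕ) : ℝ)) ^ 2 / (4 * σ ^ 2)) =
        Real.exp (-((N : ℝ) * ((j : ℝ) + 1) ^ 2)) := by
      congr 1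
      have : -(w * ((j + 1 : ℕ) : ℝ)) ^ 2 = -(4 * σ ^ 2 * N * ((j : ℝ) + 1) ^ 2) := by
        rw [← hwsq]; push_cast; ring
      rw [this]
      field_simp
    rw [e1]
    have e2 : Real.sqrt 2 ^ N * Real.exp (-((N : ℝ) * ((j : ℝ) + 1) ^ 2)) ≤ Real.exp (-(j : ℝ)) :=
      shell_aux N hN1 j
    have e3 : M * ((b + w * (((j + 1 : ℕ) : ℝ) + 1)) / t) / (Real.sqrt 2 * σ) ≤
        ((j : ℝ) + 2) * A := by
      have h3 : b + w * (((j + 1 : ℕ) : ℝ) + 1) ≤ ((j : ℝ) + 2) * (b + w) := by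
        push_cast
        nlinarith [mul_nonneg hj hb0]
      have h4 : σ ≤ Real.sqrt 2 * σ := by
        have : 1 ≤ Real.sqrt 2 := by
          rw [Real.one_le_sqrt]; norm_num
        nlinarith
      calc M * ((b + w * (((j + 1 : ℕ) : ℝ) + 1)) / t) / (Real.sqrt 2 * σ)
          ≤ M * ((((j : ℝ) + 2) * (b + w)) / t) / σ := by
            apply div_le_div₀ (by positivity) _ hσ h4
            apply mul_le_mul_of_nonneg_left _ hM0.le
            exact div_le_div_of_nonneg_right h3 ht.le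
        _ = ((j : ℝ) + 2) * A := by rw [hA]; ring
    calc _ ≤ Real.exp (-(j : ℝ)) * (((j : ℝ) + 2) * A) :=
          mul_le_mul e2 e3 (by positivity) (Real.exp_pos _).le
      _ = (((j : ℝ) + 2) * Real.exp (-(j : ℝ))) * A := by ring
      _ ≤ (2 * (3 / 4) ^ j) * A := mul_le_mul_of_nonneg_right (exp_aux j) hA0
      _ = _ := by ring
  calc gaussPi a σ {d | ENNReal.ofReal t ≤ condNum C₁ C₂ d} ≤ gaussPi a σ (⋃ k, E k) :=
        measure_mono hcov
    _ ≤ ENNReal.ofReal (9 * A) := sum_shells _ E hA0 hE0 hEk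
    _ ≤ _ := by
        apply ENNReal.ofReal_le_ofReal
        have hsN : Real.sqrt N ≤ 2 * Real.sqrt (m * n) := by
          have h5 : (N : ℝ) ≤ 2 ^ 2 * (m * n) := by rw [hNr]; nlinarith
          calc Real.sqrt N ≤ Real.sqrt (2 ^ 2 * (m * n)) := Real.sqrt_le_sqrt h5
            _ = 2 * Real.sqrt (m * n) := by
                rw [Real.sqrt_mul (by norm_num), Real.sqrt_sq (by norm_num)]
        have h6 : 9 * A = 9360 * Real.sqrt (m * n) * (b / σ + 2 * Real.sqrt N) / t := by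
          rw [hA, hM, hw]
          field_simp
          ring
        rw [h6]
        apply div_le_div_of_nonneg_right _ ht.le
        have h7 : b / σ + 2 * Real.sqrt N ≤ 4 * (b / σ + Real.sqrt (m * n)) := by
          have : 0 ≤ b / σ := by positivity
          linarith
        have h8 : 0 ≤ 9360 * Real.sqrt ((m : ℝ) * n) := by positivity
        nlinarith [mul_le_mul_of_nonneg_left h7 h8]

lemma log_le_fourteen : Real.log 74880 + 2 ≤ 14 := by
  have h : Real.log 74880 ≤ Real.log (2 ^ (17 : ℕ)) := Real.log_le_log (by norm_num) (by norm_num)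
  rw [Real.log_pow] at h
  have := Real.log_two_lt_d9
  push_cast at h
  linarith

lemma log_bound {m n : ℕ} (hm : 1 ≤ m) (hn : 1 ≤ n) (a : Data m n) (ha : frob a ≤ 1) {σ : ℝ}
    (hσ : 0 < σ) (hσ1 : σ ≤ 1) :
    1 ≤ 37440 * Real.sqrt (m * n) * (frob a / σ + Real.sqrt (m * n)) ∧
    Real.log (37440 * Real.sqrt (m * n) * (frob a / σ + Real.sqrt (m * n))) + 2 ≤
      Real.log (m * n / σ) + 14 := by
  have hm1 : (1 : ℝ) ≤ m := by exact_mod_cast hm
  have hn1 : (1 : ℝ) ≤ n := by exact_mod_cast hn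
  have hmn : (1 : ℝ) ≤ (m : ℝ) * n := by nlinarith
  have hs1 : 1 ≤ Real.sqrt (m * n) := by rw [Real.one_le_sqrt]; exact hmn
  have hss : Real.sqrt (m * n) * Real.sqrt (m * n) = (m : ℝ) * n :=
    Real.mul_self_sqrt (by positivity)
  have hfa : 0 ≤ frob a / σ := div_nonneg (frob_nonneg a) hσ.le
  have h1 : 1 ≤ 37440 * Real.sqrt (m * n) * (frob a / σ + Real.sqrt (m * n)) := by
    nlinarith [mul_nonneg (by linarith : (0 : ℝ) ≤ Real.sqrt ((m : ℝ) * n) - 1)
      (by linarith : 0 ≤ frob a / σ + Real.sqrt ((m : ℝ) * n) - 1)]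
  refine ⟨h1, ?_⟩
  have h2 : 37440 * Real.sqrt (m * n) * (frob a / σ + Real.sqrt (m * n)) ≤
      74880 * ((m : ℝ) * n / σ) := by
    have h3 : frob a / σ ≤ Real.sqrt (m * n) * (1 / σ) := by
      rw [div_eq_mul_one_div]
      exact mul_le_mul_of_nonneg_right (by linarith) (by positivity)
    have h4 : Real.sqrt (m * n) ≤ Real.sqrt (m * n) * (1 / σ) := by
      have : 1 ≤ 1 / σ := by rw [le_div_iff₀ hσ]; linarith
      nlinarith
    have h5 : 0 ≤ 37440 * Real.sqrt ((m : ℝ) * n) := by positivity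
    calc 37440 * Real.sqrt (m * n) * (frob a / σ + Real.sqrt (m * n))
        ≤ 37440 * Real.sqrt (m * n) * (Real.sqrt (m * n) * (1 / σ) + Real.sqrt (m * n) * (1 / σ)) :=
          mul_le_mul_of_nonneg_left (add_le_add h3 h4) h5
      _ = 74880 * ((Real.sqrt (m * n) * Real.sqrt (m * n)) / σ) := by ring
      _ = _ := by rw [hss]
  have h6 : Real.log (37440 * Real.sqrt (m * n) * (frob a / σ + Real.sqrt (m * n))) ≤
      Real.log 74880 + Real.log (m * n / σ) := by
    refine (Real.log_le_log (by linarith) h2).trans (le_of_eq ?_)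
    rw [Real.log_mul (by norm_num) (by positivity)]
  have := log_le_fourteen
  linarith

theorem expect_le {m n : ℕ} (hm : 1 ≤ m) (hn : 1 ≤ n) {C₁ : Set (Fin m → ℝ)}
    {C₂ : Set (Fin n → ℝ)} (h1 : IsClosedConvexCone C₁) (h2 : IsClosedConvexCone C₂)
    (a : Data m n) {σ : ℝ} (hσ : 0 < σ) (ha : frob a ≤ 1) (hσ1 : σ ≤ 1) :
    ∫⁻ d, (ENNReal.log (condNum C₁ C₂ d)).toENNReal ∂(gaussPi a σ) ≤
        ENNReal.ofReal (Real.log (m * n / σ) + 14) ∧
      expect (gaussPi a σ) (fun d => ENNReal.log (condNum C₁ C₂ d)) ≤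
        ((Real.log (m * n / σ) + 14 : ℝ) : EReal) := by
  have hm1 : (1 : ℝ) ≤ m := by exact_mod_cast hm
  have hn1 : (1 : ℝ) ≤ n := by exact_mod_cast hn
  have hmn : (1 : ℝ) ≤ (m : ℝ) * n := by nlinarith
  obtain ⟨hQ, hlog⟩ := log_bound hm hn a ha hσ hσ1
  have hmain : ∫⁻ d, (ENNReal.log (condNum C₁ C₂ d)).toENNReal ∂(gaussPi a σ) ≤
      ENNReal.ofReal (Real.log (m * n / σ) + 14) :=
    (Pool.Agent.Y980.SC.logm (gaussPi a σ) _ (measurable_condNum h1 h2) hQ
      (fun t ht => tail hm hn h1 h2 a hσ ht)).trans (ENNReal.ofReal_le_ofReal hlog)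
  have hnn : 0 ≤ Real.log ((m : ℝ) * n / σ) + 14 := by
    have e1 : 0 ≤ Real.log ((m : ℝ) * n / σ) := by
      apply Real.log_nonneg
      rw [le_div_iff₀ hσ]; linarith
    linarith
  refine ⟨hmain, ?_⟩
  unfold expect
  calc _ ≤ ((∫⁻ d, (ENNReal.log (condNum C₁ C₂ d)).toENNReal ∂(gaussPi a σ) : ℝ≥0∞) : EReal) - 0 :=
        EReal.sub_le_sub le_rfl (EReal.coe_ennreal_nonneg _)
    _ = ((∫⁻ d, (ENNReal.log (condNum C₁ C₂ d)).toENNReal ∂(gaussPi a σ) : ℝ≥0∞) : EReal) :=
        sub_zero _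
    _ ≤ ((ENNReal.ofReal (Real.log (m * n / σ) + 14) : ℝ≥0∞) : EReal) :=
        EReal.coe_ennreal_le_coe_ennreal_iff.2 hmain
    _ = _ := by
        rw [EReal.coe_ennreal_ofReal, max_eq_left hnn]

end Pool.Agent.H89.SC
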